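import Pool.Agent.Lib.MP_bc704c_co.Defs

/-!
# MP_bc704c_co: flags as sequences, adjacency, action of automorphisms
-/

set_option linter.unusedSectionVars false
set_option linter.unusedVariables false

namespace ChiralNF

universe u

variable {n : ℕ} {F : Type u} [PartialOrder F] [BoundedOrder F] {rk : F → ℤ}

/-- a flag as a sequence of faces, extended by the least and the greatest face -/
structure SF (n : ℕ) (F : Type u) [PartialOrder F] [BoundedOrder F] (rk : F → ℤ) where
  f : ℤ → F
  lo : ∀ i : ℤ, i ≤ -1 → f i = ⊥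
  hi : ∀ i : ℤ, (n : ℤ) ≤ i → f i = ⊤
  rank : ∀ i : ℤ, -1 ≤ i → i ≤ n → rk (f i) = i
  mono : Monotone f

theorem SF.ext' {A B : SF n F rk} (h : ∀ i : ℤ, 0 ≤ i → i < n → A.f i = B.f i) : A = B := by
  have : A.f = B.f := by
    funext i
    by_cases h1 : i ≤ -1
    · rw [A.lo i h1, B.lo i h1]
    · by_cases h2 : (n : ℤ) ≤ i
      · rw [A.hi i h2, B.hi i h2]
      · exact h i (by omega) (by omega)
  cases A; cases B
  simp only at this
  subst this
  rfl

theorem IsPolytope.rk_range (hP : IsPolytope n F rk) (x : F) : -1 ≤ rk x ∧ rk x ≤ n := by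
  constructor
  · rw [← hP.rk_bot]; exact hP.rk_mono.monotone bot_le
  · rw [← hP.rk_top]; exact hP.rk_mono.monotone le_top

theorem IsPolytope.eq_of_le (hP : IsPolytope n F rk) {x y : F} (h : x ≤ y) (hr : rk x = rk y) :
    x = y := by
  rcases h.eq_or_lt with h | h
  · exact h
  · have := hP.rk_mono h
    omega

theorem IsPolytope.eq_of_comp (hP : IsPolytope n F rk) {x y : F} (h : x ≤ y ∨ y ≤ x)
    (hr : rk x = rk y) : x = y := by
  rcases h with h | h
  · exact hP.eq_of_le h hr
  · exact (hP.eq_of_le h hr.symm).symm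

/-- the sequence of a flag -/
theorem IsPolytope.exists_seq (hP : IsPolytope n F rk) (A : Flag F) :
    ∃ S : SF n F rk, ∀ c, c ∈ A ↔ ∃ i, S.f i = c := by
  classical
  choose a ha hra using fun i : {i : ℤ // -1 ≤ i ∧ i ≤ n} => hP.flag_rank A i.1 i.2.1 i.2.2
  let f : ℤ → F := fun i => if h : -1 ≤ i ∧ i ≤ n then a ⟨i, h⟩ else (if i < 0 then ⊥ else ⊤)
  have hf : ∀ (i : ℤ) (h : -1 ≤ i ∧ i ≤ n), f i = a ⟨i, h⟩ := fun i h => dif_pos h
  have hlow : ∀ i : ℤ, i < -1 → f i = ⊥ := by
    intro i hi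
    have h1 : ¬ (-1 ≤ i ∧ i ≤ n) := by omega
    simp only [f, dif_neg h1]
    rw [if_pos (by omega)]
  have hhigh : ∀ i, (n : ℤ) < i → f i = ⊤ := by
    intro i hi
    have h1 : ¬ (-1 ≤ i ∧ i ≤ n) := by omega
    simp only [f, dif_neg h1]
    rw [if_neg (by omega)]
  have hrk : ∀ i : ℤ, -1 ≤ i → i ≤ n → rk (f i) = i := by
    intro i h1 h2
    rw [hf i ⟨h1, h2⟩, hra]
  have hfA : ∀ i, f i ∈ A := by
    intro i
    by_cases h : -1 ≤ i ∧ i ≤ n
    · rw [hf i h]; exact ha _
    · by_cases h2 : i < -1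
      · rw [hlow i h2]; exact A.bot_mem
      · rw [hhigh i (by omega)]; exact A.top_mem
  have hlo : ∀ i : ℤ, i ≤ -1 → f i = ⊥ := by
    intro i hi
    rcases hi.lt_or_eq with h | h
    · exact hlow i h
    · subst h
      exact (hP.eq_of_le bot_le (by rw [hP.rk_bot, hrk (-1) le_rfl (by omega)])).symm
  have hhi : ∀ i, (n : ℤ) ≤ i → f i = ⊤ := by
    intro i hi
    rcases hi.lt_or_eq with h | h
    · exact hhigh i h
    · subst h
      exact (hP.eq_of_le le_top (by rw [hP.rk_top, hrk n (by omega) le_rfl]))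
  refine ⟨⟨f, hlo, hhi, hrk, ?_⟩, ?_⟩
  · intro i j hij
    by_cases h1 : i ≤ -1
    · rw [hlo i h1]; exact bot_le
    by_cases h2 : (n : ℤ) ≤ j
    · rw [hhi j h2]; exact le_top
    rcases A.le_or_le (hfA i) (hfA j) with h | h
    · exact h
    · have h3 := hP.rk_mono.monotone h
      rw [hrk i (by omega) (by omega), hrk j (by omega) (by omega)] at h3
      have : i = j := by omega
      rw [this]
  · intro c
    constructor
    · intro hc
      have h1 := hP.rk_range c
      refine ⟨rk c, ?_⟩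
      apply hP.eq_of_comp (A.le_or_le (hfA _) hc)
      exact hrk _ h1.1 h1.2
    · rintro ⟨i, rfl⟩
      exact hfA i

theorem SF.comp (A : SF n F rk) (i j : ℤ) : A.f i ≤ A.f j ∨ A.f j ≤ A.f i := by
  rcases le_total i j with h | h
  · exact Or.inl (A.mono h)
  · exact Or.inr (A.mono h)

/-- the flag of a sequence -/
theorem IsPolytope.exists_flag (hP : IsPolytope n F rk) (S : SF n F rk) :
    ∃ A : Flag F, ∀ c, c ∈ A ↔ ∃ i, S.f i = c := by
  have hch : IsChain (· ≤ ·) (Set.range S.f) := by
    rintro _ ⟨i, rfl⟩ _ ⟨j, rfl⟩ _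
    exact S.comp i j
  obtain ⟨A, hA⟩ := hch.exists_subset_flag
  refine ⟨A, fun c => ⟨fun hc => ?_, ?_⟩⟩
  · have h1 := hP.rk_range c
    refine ⟨rk c, ?_⟩
    apply hP.eq_of_comp (A.le_or_le (hA ⟨_, rfl⟩) hc)
    exact S.rank _ h1.1 h1.2
  · rintro ⟨i, rfl⟩
    exact hA ⟨i, rfl⟩

/-- every chain is contained in a flag -/
theorem IsPolytope.exists_chain (hP : IsPolytope n F rk) {C : Set F} (hC : IsChain (· ≤ ·) C) :
    ∃ S : SF n F rk, ∀ c ∈ C, S.f (rk c) = c := by
  obtain ⟨A, hA⟩ := hC.exists_subset_flag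
  obtain ⟨S, hS⟩ := hP.exists_seq A
  refine ⟨S, fun c hc => ?_⟩
  obtain ⟨i, hi⟩ := (hS c).1 (hA hc)
  have h1 := hP.rk_range c
  apply hP.eq_of_comp _ (S.rank _ h1.1 h1.2)
  rw [← hi]
  exact S.comp _ _

/-- uniqueness and existence of adjacent flags -/
theorem IsPolytope.exists_adj (hP : IsPolytope n F rk) (A : SF n F rk) {i : ℤ} (h0 : 0 ≤ i)
    (hn : i < n) : ∃ B : SF n F rk, B.f i ≠ A.f i ∧ (∀ j, j ≠ i → B.f j = A.f j) ∧
      ∀ c : F, A.f (i - 1) < c → c < A.f (i + 1) → c ≠ A.f i → c = B.f i := by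
  classical
  have hlt : A.f (i - 1) < A.f (i + 1) := by
    apply lt_of_le_of_ne (A.mono (by omega))
    intro h
    have := congrArg rk h
    rw [A.rank _ (by omega) (by omega), A.rank _ (by omega) (by omega)] at this
    omega
  have hd := hP.diamond _ _ hlt (by
    rw [A.rank _ (by omega) (by omega), A.rank _ (by omega) (by omega)]; omega)
  rw [Set.ncard_eq_two] at hd
  obtain ⟨x, y, hxy, hset⟩ := hd
  have hAi : A.f i ∈ ({x, y} : Set F) := by
    rw [← hset]
    constructor
    · apply lt_of_le_of_ne (A.mono (by omega))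
      intro h
      have := congrArg rk h
      rw [A.rank _ (by omega) (by omega), A.rank _ (by omega) (by omega)] at this
      omega
    · apply lt_of_le_of_ne (A.mono (by omega))
      intro h
      have := congrArg rk h
      rw [A.rank _ (by omega) (by omega), A.rank _ (by omega) (by omega)] at this
      omega
  obtain ⟨z, hz, hzA, hzu⟩ : ∃ z ∈ ({x, y} : Set F), z ≠ A.f i ∧
      ∀ c ∈ ({x, y} : Set F), c ≠ A.f i → c = z := by
    rcases hAi with h | h
    · refine ⟨y, by simp, by rw [h]; exact hxy.symm, ?_⟩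
      intro c hc hcA
      rcases hc with hc | hc
      · exact absurd (hc.trans h.symm) hcA
      · exact hc
    · refine ⟨x, by simp, ?_, ?_⟩
      · rw [Set.mem_singleton_iff.1 h]; exact hxy
      · intro c hc hcA
        rcases hc with hc | hc
        · exact hc
        · rw [Set.mem_singleton_iff] at hc h
          exact absurd (hc.trans h.symm) hcA
  rw [← hset] at hz
  have hzr : rk z = i := by
    have h1 := hP.rk_mono hz.1
    have h2 := hP.rk_mono hz.2
    rw [A.rank _ (by omega) (by omega)] at h1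
    rw [A.rank _ (by omega) (by omega)] at h2
    omega
  let g : ℤ → F := fun j => if j = i then z else A.f j
  have hgi : g i = z := if_pos rfl
  have hgj : ∀ j, j ≠ i → g j = A.f j := fun j hj => if_neg hj
  refine ⟨⟨g, ?_, ?_, ?_, ?_⟩, ?_, hgj, ?_⟩
  · intro j hj
    rw [hgj j (by omega)]; exact A.lo j hj
  · intro j hj
    rw [hgj j (by omega)]; exact A.hi j hj
  · intro j h1 h2
    by_cases h : j = i
    · rw [h, hgi, hzr]
    · rw [hgj j h]; exact A.rank j h1 h2
  · intro j k hjk
    by_cases hj : j = i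
    · by_cases hk : k = i
      · rw [hj, hk]
      · rw [hj, hgi, hgj k hk]
        exact hz.2.le.trans (A.mono (by omega))
    · by_cases hk : k = i
      · rw [hk, hgi, hgj j hj]
        exact (A.mono (by omega)).trans hz.1.le
      · rw [hgj j hj, hgj k hk]; exact A.mono hjk
  · change g i ≠ A.f i
    rw [hgi]; exact hzA
  · intro c h1 h2 h3
    change c = g i
    rw [hgi]
    apply hzu c _ h3
    rw [← hset]
    exact ⟨h1, h2⟩

open Classical in
/-- the `i`-adjacent flag (the flag itself if `i` is out of range) -/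
noncomputable def adj (hP : IsPolytope n F rk) (i : ℤ) (A : SF n F rk) : SF n F rk :=
  if h : 0 ≤ i ∧ i < n then (hP.exists_adj A h.1 h.2).choose else A

variable (hP : IsPolytope n F rk)

theorem adj_out {i : ℤ} (h : ¬ (0 ≤ i ∧ i < n)) (A : SF n F rk) : adj hP i A = A := dif_neg h

theorem adj_ne {i : ℤ} (h0 : 0 ≤ i) (hn : i < n) (A : SF n F rk) :
    (adj hP i A).f i ≠ A.f i := by
  have : adj hP i A = (hP.exists_adj A h0 hn).choose := dif_pos ⟨h0, hn⟩
  rw [this]
  exact (hP.exists_adj A h0 hn).choose_spec.1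

theorem adj_eq {i : ℤ} (A : SF n F rk) {j : ℤ} (hj : j ≠ i) : (adj hP i A).f j = A.f j := by
  by_cases h : 0 ≤ i ∧ i < n
  · have : adj hP i A = (hP.exists_adj A h.1 h.2).choose := dif_pos h
    rw [this]
    exact (hP.exists_adj A h.1 h.2).choose_spec.2.1 j hj
  · rw [adj_out hP h]

theorem adj_unique {i : ℤ} (h0 : 0 ≤ i) (hn : i < n) {A B : SF n F rk} (h1 : B.f i ≠ A.f i)
    (h2 : ∀ j, j ≠ i → B.f j = A.f j) : B = adj hP i A := by
  have : adj hP i A = (hP.exists_adj A h0 hn).choose := dif_pos ⟨h0, hn⟩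
  apply SF.ext'
  intro j hj0 hjn
  by_cases hj : j = i
  · subst hj
    rw [this]
    apply (hP.exists_adj A h0 hn).choose_spec.2.2 _ _ _ h1
    · rw [← h2 (j - 1) (by omega)]
      apply lt_of_le_of_ne (B.mono (by omega))
      intro h
      have := congrArg rk h
      rw [B.rank _ (by omega) (by omega), B.rank _ (by omega) (by omega)] at this
      omega
    · rw [← h2 (j + 1) (by omega)]
      apply lt_of_le_of_ne (B.mono (by omega))
      intro h
      have := congrArg rk h
      rw [B.rank _ (by omega) (by omega), B.rank _ (by omega) (by omega)] at this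
      omega
  · rw [h2 j hj, adj_eq hP A hj]

theorem adj_adj (i : ℤ) (A : SF n F rk) : adj hP i (adj hP i A) = A := by
  by_cases h : 0 ≤ i ∧ i < n
  · symm
    apply adj_unique hP h.1 h.2
    · exact (adj_ne hP h.1 h.2 A).symm
    · intro j hj
      exact (adj_eq hP A hj).symm
  · rw [adj_out hP h, adj_out hP h]

theorem adj_comm {i j : ℤ} (hij : i + 2 ≤ j) (A : SF n F rk) :
    adj hP i (adj hP j A) = adj hP j (adj hP i A) := by
  classical
  by_cases hi : 0 ≤ i ∧ i < n
  swap
  · rw [adj_out hP hi, adj_out hP hi]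
  by_cases hj : 0 ≤ j ∧ j < n
  swap
  · rw [adj_out hP hj, adj_out hP hj]
  set B := adj hP j A with hB
  set G := adj hP i A with hG
  let p : ℤ → F := fun k => if k = i then G.f i else B.f k
  have hpi : p i = G.f i := if_pos rfl
  have hpk : ∀ k, k ≠ i → p k = B.f k := fun k hk => if_neg hk
  have hBA : ∀ k, k ≠ j → B.f k = A.f k := fun k hk => adj_eq hP A hk
  have hGA : ∀ k, k ≠ i → G.f k = A.f k := fun k hk => adj_eq hP A hk
  have hmono : Monotone p := by
    intro k l hkl
    by_cases hk : k = i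
    · by_cases hl : l = i
      · rw [hk, hl]
      · rw [hk, hpi, hpk l hl]
        have h1 : G.f i ≤ G.f (i + 1) := G.mono (by omega)
        rw [hGA (i + 1) (by omega), ← hBA (i + 1) (by omega)] at h1
        exact h1.trans (B.mono (by omega))
    · by_cases hl : l = i
      · rw [hl, hpi, hpk k hk]
        have h1 : G.f (i - 1) ≤ G.f i := G.mono (by omega)
        rw [hGA (i - 1) (by omega), ← hBA (i - 1) (by omega)] at h1
        exact (B.mono (by omega)).trans h1
      · rw [hpk k hk, hpk l hl]; exact B.mono hkl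
  let D : SF n F rk := ⟨p, fun k hk => by rw [hpk k (by omega)]; exact B.lo k hk,
    fun k hk => by rw [hpk k (by omega)]; exact B.hi k hk,
    fun k h1 h2 => by
      by_cases h : k = i
      · rw [h, hpi]; exact G.rank i (by omega) (by omega)
      · rw [hpk k h]; exact B.rank k h1 h2, hmono⟩
  have e1 : D = adj hP i B := by
    apply adj_unique hP hi.1 hi.2
    · change p i ≠ B.f i
      rw [hpi, hBA i (by omega)]
      exact adj_ne hP hi.1 hi.2 A
    · intro k hk
      exact hpk k hk
  have e2 : D = adj hP j G := by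
    apply adj_unique hP hj.1 hj.2
    · change p j ≠ G.f j
      rw [hpk j (by omega), hGA j (by omega)]
      exact adj_ne hP hj.1 hj.2 A
    · intro k hk
      change p k = G.f k
      by_cases h : k = i
      · rw [h, hpi]
      · rw [hpk k h, hBA k hk, hGA k h]
  rw [← e1, ← e2]

include hP in
/-- automorphisms preserve the rank -/
theorem rk_le_auto (φ : F ≃o F) : ∀ (k : ℕ) (x : F), rk x = (k : ℤ) - 1 → (k : ℤ) - 1 ≤ rk (φ x) := by
  intro k
  induction k with
  | zero =>
    intro x _
    have := (hP.rk_range (φ x)).1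
    simpa using this
  | succ k ih =>
    intro x hx
    push_cast at hx ⊢
    obtain ⟨S, hS⟩ := hP.exists_chain (C := {x}) Set.subsingleton_singleton.isChain
    have h1 := hS x rfl
    have hr := hP.rk_range x
    have h2 : S.f (rk x - 1) < x := by
      apply lt_of_le_of_ne
      · conv_rhs => rw [← h1]
        exact S.mono (by omega)
      · intro h
        have h3 := congrArg rk h
        rw [S.rank _ (by omega) (by omega)] at h3
        omega
    have h4 := ih (S.f (rk x - 1)) (by rw [S.rank _ (by omega) (by omega)]; omega)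
    have h5 := hP.rk_mono (φ.strictMono h2)
    omega

include hP in
theorem rk_auto (φ : F ≃o F) (x : F) : rk (φ x) = rk x := by
  have h1 := hP.rk_range x
  have h2 := hP.rk_range (φ x)
  apply le_antisymm
  · have := rk_le_auto hP φ.symm (rk (φ x) + 1).toNat (φ x) (by omega)
    rw [OrderIso.symm_apply_apply] at this
    omega
  · have := rk_le_auto hP φ (rk x + 1).toNat x (by omega)
    omega

/-- action of an automorphism on the flags -/
def act (φ : F ≃o F) (A : SF n F rk) : SF n F rk where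
  f := fun i => φ (A.f i)
  lo := fun i hi => by rw [A.lo i hi, map_bot]
  hi := fun i hi => by rw [A.hi i hi, map_top]
  rank := fun i h1 h2 => by rw [rk_auto hP, A.rank i h1 h2]
  mono := fun i j hij => φ.monotone (A.mono hij)

theorem act_f (φ : F ≃o F) (A : SF n F rk) (i : ℤ) : (act hP φ A).f i = φ (A.f i) := rfl

theorem act_adj (φ : F ≃o F) (i : ℤ) (A : SF n F rk) :
    act hP φ (adj hP i A) = adj hP i (act hP φ A) := by
  by_cases h : 0 ≤ i ∧ i < n
  · apply adj_unique hP h.1 h.2
    · rw [act_f, act_f]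
      intro h1
      exact adj_ne hP h.1 h.2 A (φ.injective h1)
    · intro j hj
      rw [act_f, act_f, adj_eq hP A hj]
  · rw [adj_out hP h, adj_out hP h]

theorem act_trans (φ ψ : F ≃o F) (A : SF n F rk) :
    act hP (φ.trans ψ) A = act hP ψ (act hP φ A) := rfl

/-- connectivity in terms of sequences -/
theorem conn (A B : SF n F rk) : Relation.ReflTransGen
    (fun C D : SF n F rk => ∃ i : ℤ, 0 ≤ i ∧ i < n ∧ A.f i ≠ B.f i ∧ D = adj hP i C) A B := by
  obtain ⟨FA, hFA⟩ := hP.exists_flag A
  obtain ⟨FB, hFB⟩ := hP.exists_flag B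
  have hmem : ∀ (X : Flag F) (S : SF n F rk), (∀ c, c ∈ X ↔ ∃ i, S.f i = c) →
      ∀ c, c ∈ X → S.f (rk c) = c := by
    intro X S hX c hc
    obtain ⟨i, hi⟩ := (hX c).1 hc
    have h1 := hP.rk_range c
    apply hP.eq_of_comp _ (S.rank _ h1.1 h1.2)
    rw [← hi]
    exact S.comp _ _
  have key : ∀ X : Flag F, Relation.ReflTransGen
      (fun C D : Flag F => Adjacent C D ∧ ∀ c : F, c ∈ FA → c ∈ FB → c ∈ D) FA X →
      ∀ S : SF n F rk, (∀ c, c ∈ X ↔ ∃ i, S.f i = c) → Relation.ReflTransGen
    (fun C D : SF n F rk => ∃ i : ℤ, 0 ≤ i ∧ i < n ∧ A.f i ≠ B.f i ∧ D = adj hP i C) A S ∧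
      ∀ c : F, c ∈ FA → c ∈ FB → c ∈ X := by
    intro X hX
    induction hX with
    | refl =>
      intro S hS
      have : S = A := by
        apply SF.ext'
        intro i h0 hn
        have h1 : S.f i ∈ FA := (hS _).2 ⟨i, rfl⟩
        have h2 := hmem FA A hFA _ h1
        rw [S.rank i (by omega) (by omega)] at h2
        exact h2.symm
      rw [this]
      exact ⟨Relation.ReflTransGen.refl, fun c hc _ => hc⟩
    | tail hX hstep ih =>
      rename_i Y Z
      intro S hS
      obtain ⟨T, hT⟩ := hP.exists_seq Y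
      obtain ⟨ihT, hcom⟩ := ih T hT
      obtain ⟨⟨a, b, haY, haZ, hbZ, hbY, hab⟩, hcomZ⟩ := hstep
      refine ⟨?_, hcomZ⟩
      have ha := hmem Y T hT a haY
      have hb := hmem Z S hS b hbZ
      have har := hP.rk_range a
      have hbr := hP.rk_range b
      -- the rank of a is in range
      have ha0 : 0 ≤ rk a := by
        by_contra h
        have : a = ⊥ := by rw [← ha]; exact T.lo _ (by omega)
        exact haZ (this ▸ Z.bot_mem)
      have han : rk a < n := by
        by_contra h
        have : a = ⊤ := by rw [← ha]; exact T.hi _ (by omega)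
        exact haZ (this ▸ Z.top_mem)
      have hSa : S.f (rk a) ≠ a := fun h => haZ ((hS a).2 ⟨_, h⟩)
      have hrab : S.f (rk a) = b := by
        by_contra hne
        have h1 : S.f (rk a) ∈ Z := (hS _).2 ⟨_, rfl⟩
        have h2 : S.f (rk a) ∈ Y := (hab _ hSa hne).2 h1
        have h3 := hmem Y T hT _ h2
        rw [S.rank _ har.1 har.2, ha] at h3
        exact hSa h3.symm
      have hrk : rk b = rk a := by rw [← hrab, S.rank _ har.1 har.2]
      have hadj : S = adj hP (rk a) T := by
        apply adj_unique hP ha0 han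
        · rw [ha]; exact hSa
        · intro j hj
          by_cases hj1 : j ≤ -1
          · rw [S.lo j hj1, T.lo j hj1]
          by_cases hj2 : (n : ℤ) ≤ j
          · rw [S.hi j hj2, T.hi j hj2]
          have h1 : S.f j ∈ Z := (hS _).2 ⟨_, rfl⟩
          have h2 : S.f j ≠ a := fun h => by
            have := congrArg rk h
            rw [S.rank j (by omega) (by omega)] at this
            exact hj this
          have h3 : S.f j ≠ b := fun h => by
            have := congrArg rk h
            rw [S.rank j (by omega) (by omega), hrk] at this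
            exact hj this
          have h4 := hmem Y T hT _ ((hab _ h2 h3).2 h1)
          rw [S.rank j (by omega) (by omega)] at h4
          exact h4.symm
      refine ihT.tail ⟨rk a, ha0, han, ?_, hadj⟩
      intro heq
      have h1 : A.f (rk a) ∈ FA := (hFA _).2 ⟨_, rfl⟩
      have h2 : A.f (rk a) ∈ FB := (hFB _).2 ⟨_, heq.symm⟩
      have h3 := hmem Y T hT _ (hcom _ h1 h2)
      rw [A.rank _ har.1 har.2, ha] at h3
      have h4 := hmem Z S hS _ (hcomZ _ h1 h2)
      rw [A.rank _ har.1 har.2, ← h3] at h4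
      exact hSa h4
  exact (key FB (hP.connected FA FB) B hFB).1

theorem conn0 (A B : SF n F rk) : Relation.ReflTransGen
    (fun C D : SF n F rk => ∃ i : ℤ, 0 ≤ i ∧ i < n ∧ D = adj hP i C) A B := by
  refine Relation.ReflTransGen.mono ?_ _ _ (conn hP A B)
  rintro C D ⟨i, h0, hn, _, h⟩
  exact ⟨i, h0, hn, h⟩

/-- an automorphism which fixes a flag is trivial -/
theorem act_ext {φ ψ : F ≃o F} {A : SF n F rk} (h : act hP φ A = act hP ψ A) :
    ∀ x, φ x = ψ x := by
  have key : ∀ B : SF n F rk, act hP φ B = act hP ψ B := by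
    intro B
    induction conn0 hP A B with
    | refl => exact h
    | tail _ hstep ih =>
      obtain ⟨i, _, _, rfl⟩ := hstep
      rw [act_adj, act_adj, ih]
  intro x
  obtain ⟨S, hS⟩ := hP.exists_chain (C := {x}) Set.subsingleton_singleton.isChain
  have h1 := congrArg (fun T : SF n F rk => T.f (rk x)) (key S)
  simp only [act_f] at h1
  rwa [hS x rfl] at h1

/-! ### orbits -/

variable {d : ℕ} {β : F → EuclideanSpace ℝ (Fin d)}

theorem isSymmetry_refl : IsSymmetry rk β (IsometryEquiv.refl _) (OrderIso.refl F) :=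
  fun x _ => rfl

include hP in
theorem isSymmetry_trans {g h : EuclideanSpace ℝ (Fin d) ≃ᵢ EuclideanSpace ℝ (Fin d)}
    {φ ψ : F ≃o F} (h1 : IsSymmetry rk β g φ) (h2 : IsSymmetry rk β h ψ) :
    IsSymmetry rk β (g.trans h) (φ.trans ψ) := by
  intro x hx
  change h (g (β x)) = β (ψ (φ x))
  rw [h1 x hx, h2 _ (by rw [rk_auto hP, hx])]

include hP in
theorem isSymmetry_symm {g : EuclideanSpace ℝ (Fin d) ≃ᵢ EuclideanSpace ℝ (Fin d)}
    {φ : F ≃o F} (h1 : IsSymmetry rk β g φ) : IsSymmetry rk β g.symm φ.symm := by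
  intro x hx
  have h2 := h1 (φ.symm x) (by rw [rk_auto hP, hx])
  rw [OrderIso.apply_symm_apply] at h2
  rw [← h2, IsometryEquiv.symm_apply_apply]

/-- same orbit, for sequences -/
def SO (hP : IsPolytope n F rk) (β : F → EuclideanSpace ℝ (Fin d)) (A B : SF n F rk) : Prop :=
  ∃ (g : EuclideanSpace ℝ (Fin d) ≃ᵢ EuclideanSpace ℝ (Fin d)) (φ : F ≃o F),
    IsSymmetry rk β g φ ∧ act hP φ A = B

theorem SO_iff {A B : SF n F rk} {FA FB : Flag F} (hA : ∀ c, c ∈ FA ↔ ∃ i, A.f i = c)
    (hB : ∀ c, c ∈ FB ↔ ∃ i, B.f i = c) : SameOrbit rk β FA FB ↔ SO hP β A B := by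
  constructor
  · rintro ⟨g, φ, hg, h⟩
    refine ⟨g, φ, hg, ?_⟩
    apply SF.ext'
    intro i h0 hn
    rw [act_f]
    have h1 : φ (A.f i) ∈ FB := (h _).1 ((hA _).2 ⟨i, rfl⟩)
    obtain ⟨j, hj⟩ := (hB _).1 h1
    have h2 : rk (φ (A.f i)) = i := by rw [rk_auto hP, A.rank i (by omega) (by omega)]
    apply hP.eq_of_comp
    · rw [← hj]; exact B.comp _ _
    · rw [h2, B.rank i (by omega) (by omega)]
  · rintro ⟨g, φ, hg, h⟩
    refine ⟨g, φ, hg, fun c => ?_⟩
    rw [hA, hB]
    constructor
    · rintro ⟨i, rfl⟩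
      exact ⟨i, by rw [← h]; rfl⟩
    · rintro ⟨i, hi⟩
      rw [← h, act_f] at hi
      exact ⟨i, φ.injective hi⟩

theorem SO_symm {A B : SF n F rk} (h : SO hP β A B) : SO hP β B A := by
  obtain ⟨g, φ, hg, h⟩ := h
  refine ⟨g.symm, φ.symm, isSymmetry_symm hP hg, ?_⟩
  rw [← h, ← act_trans]
  apply SF.ext'
  intro i _ _
  rw [act_f]
  exact OrderIso.symm_apply_apply _ _

theorem SO_trans {A B C : SF n F rk} (h : SO hP β A B) (h' : SO hP β B C) : SO hP β A C := by
  obtain ⟨g, φ, hg, rfl⟩ := h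
  obtain ⟨g', φ', hg', rfl⟩ := h'
  exact ⟨g.trans g', φ.trans φ', isSymmetry_trans hP hg hg', rfl⟩

/-- chirality for sequences -/
theorem chiral_seq (hc : IsChiral rk β) :
    (∀ (A : SF n F rk) (i : ℤ), 0 ≤ i → i < n → ¬ SO hP β A (adj hP i A)) ∧
    (∀ (A : SF n F rk) (i j : ℤ), 0 ≤ i → i < n → 0 ≤ j → j < n →
      SO hP β A (adj hP j (adj hP i A))) := by
  obtain ⟨⟨X, Y, hXY, hor⟩, hadj⟩ := hc
  obtain ⟨SX, hSX⟩ := hP.exists_seq X
  obtain ⟨SY, hSY⟩ := hP.exists_seq Y
  have h1 : ∀ (A : SF n F rk) (i : ℤ), 0 ≤ i → i < n → ¬ SO hP β A (adj hP i A) := by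
    intro A i h0 hn hSO
    obtain ⟨FA, hFA⟩ := hP.exists_flag A
    obtain ⟨FB, hFB⟩ := hP.exists_flag (adj hP i A)
    refine hadj FA FB ?_ ((SO_iff hP hFA hFB).2 hSO)
    refine ⟨A.f i, (adj hP i A).f i, (hFA _).2 ⟨i, rfl⟩, ?_, (hFB _).2 ⟨i, rfl⟩, ?_, ?_⟩
    · rw [hFB]
      rintro ⟨j, hj⟩
      by_cases hji : j = i
      · subst hji
        exact adj_ne hP h0 hn A hj
      · rw [adj_eq hP A hji] at hj
        by_cases hj1 : j ≤ -1
        · rw [A.lo j hj1] at hj
          have := congrArg rk hj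
          rw [hP.rk_bot, A.rank i (by omega) (by omega)] at this
          omega
        by_cases hj2 : (n : ℤ) ≤ j
        · rw [A.hi j hj2] at hj
          have := congrArg rk hj
          rw [hP.rk_top, A.rank i (by omega) (by omega)] at this
          omega
        have := congrArg rk hj
        rw [A.rank i (by omega) (by omega), A.rank j (by omega) (by omega)] at this
        exact hji this
    · rw [hFA]
      rintro ⟨j, hj⟩
      have h2 := hP.rk_range (A.f j)
      have h3 : rk (A.f j) = i := by rw [hj, (adj hP i A).rank i (by omega) (by omega)]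
      have h4 : A.f j = A.f i := by
        apply hP.eq_of_comp (A.comp _ _)
        rw [h3, A.rank i (by omega) (by omega)]
      exact adj_ne hP h0 hn A (by rw [← hj, h4])
    · intro c hc1 hc2
      rw [hFA, hFB]
      constructor
      · rintro ⟨j, rfl⟩
        have hji : j ≠ i := fun h => hc1 (by rw [h])
        exact ⟨j, adj_eq hP A hji⟩
      · rintro ⟨j, rfl⟩
        have hji : j ≠ i := fun h => hc2 (by rw [h])
        exact ⟨j, (adj_eq hP A hji).symm⟩
  have hor' : ∀ A : SF n F rk, SO hP β A SX ∨ SO hP β A SY := by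
    intro A
    obtain ⟨FA, hFA⟩ := hP.exists_flag A
    rcases hor FA with h | h
    · exact Or.inl ((SO_iff hP hFA hSX).1 h)
    · exact Or.inr ((SO_iff hP hFA hSY).1 h)
  refine ⟨h1, ?_⟩
  intro A i j hi0 hin hj0 hjn
  have a1 := h1 A i hi0 hin
  have a2 := h1 (adj hP i A) j hj0 hjn
  rcases hor' A with hA | hA <;> rcases hor' (adj hP i A) with hB | hB <;>
    rcases hor' (adj hP j (adj hP i A)) with hC | hC
  · exact SO_trans hP hA (SO_symm hP hC)
  · exact absurd (SO_trans hP hA (SO_symm hP hB)) a1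
  · exact SO_trans hP hA (SO_symm hP hC)
  · exact absurd (SO_trans hP hB (SO_symm hP hC)) a2
  · exact absurd (SO_trans hP hB (SO_symm hP hC)) a2
  · exact SO_trans hP hA (SO_symm hP hC)
  · exact absurd (SO_trans hP hA (SO_symm hP hB)) a1
  · exact SO_trans hP hA (SO_symm hP hC)

end ChiralNF
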