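import Mathlib

/-!
# MP_bc704c_co: the linear algebra core

Involutive isometries `t 0, ..., t m` and an isometry `s` with inverse `s'` of a finite dimensional
real inner product space with the relations of the rotation group of a chiral polytope. If the fixed
spaces of `s`, of `s, t m` and of `s, t m, t (m-1)` have codimension at most `3, 4, 5` and `m ≥ 4`,
there is an isometry which commutes with all `t j` and inverts `s`.
-/

open Module Submodule

set_option linter.unusedSectionVars false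
set_option linter.unusedVariables false

namespace ChiralNF

noncomputable section

variable {W : Type*} [NormedAddCommGroup W] [InnerProductSpace ℝ W] [FiniteDimensional ℝ W]

/-- a linear isometry which maps a subspace into itself maps its complement into itself -/
lemma perp_inv (g : W →ₗᵢ[ℝ] W) (U : Submodule ℝ W) (h : ∀ x ∈ U, g x ∈ U) :
    ∀ x ∈ Uᗮ, g x ∈ Uᗮ := by
  have hmap : U.map g.toLinearMap ≤ U := by
    rintro _ ⟨x, hx, rfl⟩
    exact h x hx
  have hfr : finrank ℝ (U.map g.toLinearMap) = finrank ℝ U :=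
    (U.equivMapOfInjective g.toLinearMap g.injective).finrank_eq.symm
  have heq : U.map g.toLinearMap = U := Submodule.eq_of_le_of_finrank_eq hmap hfr
  intro x hx
  rw [Submodule.mem_orthogonal] at hx ⊢
  intro u hu
  rw [← heq] at hu
  obtain ⟨u', hu', rfl⟩ := hu
  change inner ℝ (g u') (g x) = 0
  rw [g.inner_map_map]
  exact hx u' hu'

/-- the isometry which is `r` on `U` and the identity on the complement -/
lemma mkS (U : Submodule ℝ W) (r : W →ₗᵢ[ℝ] W) (h : ∀ x ∈ U, r x ∈ U) :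
    ∃ S : W →ₗᵢ[ℝ] W, (∀ x ∈ U, S x = r x) ∧ ∀ x ∈ Uᗮ, S x = x := by
  let P : W →ₗ[ℝ] W := (U.starProjection : W →L[ℝ] W).toLinearMap
  let L : W →ₗ[ℝ] W := LinearMap.id - P + r.toLinearMap ∘ₗ P
  have hP : ∀ x ∈ U, P x = x := fun x hx => Submodule.starProjection_eq_self_iff.2 hx
  have hP' : ∀ x ∈ Uᗮ, P x = 0 := fun x hx =>
    (Submodule.starProjection_apply_eq_zero_iff (K := U)).2 hx
  have hL : ∀ x ∈ U, L x = r x := by
    intro x hx
    simp [L, hP x hx]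
  have hL' : ∀ x ∈ Uᗮ, L x = x := by
    intro x hx
    simp [L, hP' x hx]
  refine ⟨⟨L, ?_⟩, hL, hL'⟩
  intro x
  obtain ⟨y, hy, z, hz, rfl⟩ := U.exists_add_mem_mem_orthogonal x
  rw [map_add, hL y hy, hL' z hz]
  have e1 := norm_add_sq_eq_norm_sq_add_norm_sq_real
    (Submodule.inner_right_of_mem_orthogonal (h y hy) hz)
  have e2 := norm_add_sq_eq_norm_sq_add_norm_sq_real
    (Submodule.inner_right_of_mem_orthogonal hy hz)
  rw [r.norm_map] at e1
  nlinarith [norm_nonneg (r y + z), norm_nonneg (y + z)]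

/-- commutation of `S` with an isometry -/
lemma S_comm {U : Submodule ℝ W} {r S g : W →ₗᵢ[ℝ] W} (hr : ∀ x ∈ U, r x ∈ U)
    (hS : ∀ x ∈ U, S x = r x) (hS' : ∀ x ∈ Uᗮ, S x = x) (hg : ∀ x ∈ U, g x ∈ U)
    (hc : ∀ x ∈ U, r (g x) = g (r x)) : ∀ x, S (g x) = g (S x) := by
  intro x
  obtain ⟨y, hy, z, hz, rfl⟩ := U.exists_add_mem_mem_orthogonal x
  simp only [map_add]
  rw [hS y hy, hS' z hz, hS _ (hg y hy), hS' _ (perp_inv g U hg z hz), hc y hy]

/-- `S` inverts `s` -/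
lemma S_inv {U : Submodule ℝ W} {r S s s' : W →ₗᵢ[ℝ] W}
    (hS : ∀ x ∈ U, S x = r x) (hS' : ∀ x ∈ Uᗮ, S x = x) (hs : ∀ x ∈ U, s x ∈ U)
    (hc : ∀ x ∈ U, r (s x) = s' (r x)) (hp : ∀ x ∈ Uᗮ, s x = s' x) :
    ∀ x, S (s x) = s' (S x) := by
  intro x
  obtain ⟨y, hy, z, hz, rfl⟩ := U.exists_add_mem_mem_orthogonal x
  simp only [map_add]
  rw [hS y hy, hS' z hz, hS _ (hs y hy), hS' _ (perp_inv s U hs z hz), hc y hy, hp z hz]

/-- an isometry acts by a sign on an invariant subspace of dimension at most one -/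
lemma scal1 (g : W →ₗᵢ[ℝ] W) (U : Submodule ℝ W) (h : ∀ x ∈ U, g x ∈ U)
    (hd : finrank ℝ U ≤ 1) : ∃ ε : ℝ, (ε = 1 ∨ ε = -1) ∧ ∀ x ∈ U, g x = ε • x := by
  rcases Nat.lt_or_ge (finrank ℝ U) 1 with h0 | h1
  · have : U = ⊥ := by
      rw [← Submodule.finrank_eq_zero (R := ℝ)]; omega
    refine ⟨1, Or.inl rfl, ?_⟩
    intro x hx
    rw [this, Submodule.mem_bot] at hx
    simp [hx]
  · have h1 : finrank ℝ U = 1 := le_antisymm hd h1
    obtain ⟨⟨e, he⟩, he0, hspan⟩ := finrank_eq_one_iff'.1 h1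
    have he0' : e ≠ 0 := fun h => he0 (Subtype.ext h)
    obtain ⟨c, hc⟩ := hspan ⟨g e, h e he⟩
    have hc' : g e = c • e := (congrArg Subtype.val hc).symm
    have hn : |c| = 1 := by
      have h2 := g.norm_map e
      rw [hc', norm_smul, Real.norm_eq_abs] at h2
      have h3 : ‖e‖ ≠ 0 := norm_ne_zero_iff.2 he0'
      field_simp at h2
      exact h2
    refine ⟨c, eq_or_eq_neg_of_abs_eq hn, ?_⟩
    intro x hx
    obtain ⟨a, ha⟩ := hspan ⟨x, hx⟩
    have ha' : x = a • e := (congrArg Subtype.val ha).symm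
    rw [ha', map_smul, hc', smul_comm]

/-- the relations -/
structure Rels (m : ℕ) (t : ℕ → W →ₗᵢ[ℝ] W) (s s' : W →ₗᵢ[ℝ] W) : Prop where
  ss' : ∀ x, s (s' x) = x
  s's : ∀ x, s' (s x) = x
  inv : ∀ j ≤ m, ∀ x, t j (t j x) = x
  comm : ∀ i j, i ≤ m → j ≤ m → i + 2 ≤ j → ∀ x, t i (t j x) = t j (t i x)
  dih : ∀ j < m, ∀ x, t j (s x) = s' (t j x)

/-- the subspace where `s ^ 2 = 1` -/
def KK (s : W →ₗᵢ[ℝ] W) : Submodule ℝ W :=
  LinearMap.eqLocus (s.toLinearMap ∘ₗ s.toLinearMap) LinearMap.id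

lemma mem_KK {s : W →ₗᵢ[ℝ] W} {x : W} : x ∈ KK s ↔ s (s x) = x := Iff.rfl

variable {m : ℕ} {t : ℕ → W →ₗᵢ[ℝ] W} {s s' : W →ₗᵢ[ℝ] W}

lemma Rels.dih' (H : Rels m t s s') : ∀ j < m, ∀ x, s (t j x) = t j (s' x) := by
  intro j hj x
  have h := H.dih j hj (s' x)
  rw [H.ss'] at h
  rw [h, H.ss']

lemma Rels.comm' (H : Rels m t s s') {i j : ℕ} (hi : i ≤ m) (hj : j ≤ m)
    (hij : i + 2 ≤ j ∨ j + 2 ≤ i) : ∀ x, t i (t j x) = t j (t i x) := by
  intro x
  rcases hij with h | h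
  · exact H.comm i j hi hj h x
  · exact (H.comm j i hj hi h x).symm

lemma Rels.KK_t (H : Rels m t s s') {j : ℕ} (hj : j < m) : ∀ x ∈ KK s, t j x ∈ KK s := by
  intro x hx
  rw [mem_KK] at hx ⊢
  have h1 : s' (s' x) = x := by
    conv_lhs => rw [← hx]
    rw [H.s's, H.s's]
  rw [H.dih' j hj, H.dih' j hj, h1]

lemma Rels.KK_s (H : Rels m t s s') : ∀ x ∈ KK s, s x ∈ KK s := by
  intro x hx
  rw [mem_KK] at hx ⊢
  rw [hx]

lemma KK_perp_zero {x : W} (hx : x ∈ (KK s)ᗮ) (h : s (s x) = x) : x = 0 := by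
  have h1 : x ∈ KK s := h
  have := (Submodule.mem_orthogonal _ _).1 hx x h1
  exact inner_self_eq_zero.1 this

/-- `s x = s' x` iff `s (s x) = x` -/
lemma Rels.eq_iff (H : Rels m t s s') (x : W) : s x = s' x ↔ s (s x) = x := by
  constructor
  · intro h
    rw [h, H.ss']
  · intro h
    have := congrArg s' h
    rwa [H.s's] at this

/-- eigenspaces of `t i` in `Pi` -/
def Ep (s : W →ₗᵢ[ℝ] W) (g : W →ₗᵢ[ℝ] W) : Submodule ℝ W :=
  (KK s)ᗮ ⊓ LinearMap.eqLocus g.toLinearMap LinearMap.id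

def Em (s : W →ₗᵢ[ℝ] W) (g : W →ₗᵢ[ℝ] W) : Submodule ℝ W :=
  (KK s)ᗮ ⊓ LinearMap.eqLocus g.toLinearMap (-LinearMap.id)

lemma mem_Ep {g : W →ₗᵢ[ℝ] W} {x : W} : x ∈ Ep s g ↔ x ∈ (KK s)ᗮ ∧ g x = x := Iff.rfl

lemma mem_Em {g : W →ₗᵢ[ℝ] W} {x : W} : x ∈ Em s g ↔ x ∈ (KK s)ᗮ ∧ g x = -x := Iff.rfl

lemma Rels.N_perp (H : Rels m t s s') {x : W} (hx : x ∈ (KK s)ᗮ) : s x - s' x ∈ (KK s)ᗮ := by
  apply Submodule.sub_mem
  · exact perp_inv s _ H.KK_s x hx
  · apply perp_inv s' _ _ x hx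
    intro y hy
    rw [mem_KK] at hy ⊢
    have h1 : s' y = s y := by
      rw [(H.eq_iff y).2 hy]
    rw [h1, hy]

lemma Rels.N_inj (H : Rels m t s s') {x : W} (hx : x ∈ (KK s)ᗮ) (h : s x - s' x = 0) :
    x = 0 := by
  apply KK_perp_zero hx
  rw [← H.eq_iff]
  exact sub_eq_zero.1 h

lemma Rels.finrank_E (H : Rels m t s s') {i : ℕ} (hi : i < m) :
    finrank ℝ (Ep s (t i)) + finrank ℝ (Em s (t i)) = finrank ℝ (KK s)ᗮ ∧
      finrank ℝ (Ep s (t i)) = finrank ℝ (Em s (t i)) := by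
  have hEm : (Ep s (t i))ᗮ ⊓ (KK s)ᗮ = Em s (t i) := by
    ext x
    rw [Submodule.mem_inf, mem_Em, Submodule.mem_orthogonal]
    constructor
    · rintro ⟨h1, h2⟩
      refine ⟨h2, ?_⟩
      have h3 : x + t i x ∈ Ep s (t i) := by
        rw [mem_Ep]
        refine ⟨Submodule.add_mem _ h2 (perp_inv (t i) _ (H.KK_t hi) x h2), ?_⟩
        rw [map_add, H.inv i hi.le, add_comm]
      have h4 := h1 _ h3
      have h5 : inner ℝ (x + t i x) (t i x) = 0 := by
        have : inner ℝ (t i (x + t i x)) (t i x) = inner ℝ (x + t i x) x :=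
          (t i).inner_map_map _ _
        rw [(mem_Ep.1 h3).2] at this
        rw [this, h4]
      have h6 : inner ℝ (x + t i x) (x + t i x) = 0 := by
        rw [inner_add_right, h4, h5, add_zero]
      have h7 := inner_self_eq_zero.1 h6
      rw [add_comm] at h7
      exact eq_neg_of_add_eq_zero_left h7
    · rintro ⟨h1, h2⟩
      refine ⟨?_, h1⟩
      intro u hu
      have h3 : inner ℝ (t i u) (t i x) = inner ℝ u x := (t i).inner_map_map _ _
      rw [(mem_Ep.1 hu).2, h2, inner_neg_right] at h3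
      linarith
  have hle : Ep s (t i) ≤ (KK s)ᗮ := inf_le_left
  have hsum := Submodule.finrank_add_inf_finrank_orthogonal hle
  rw [hEm] at hsum
  refine ⟨hsum, ?_⟩
  have hN : ∀ x, t i (s x - s' x) = -(s (t i x) - s' (t i x)) := by
    intro x
    rw [map_sub, H.dih i hi, H.dih' i hi]
    abel_nf
  let N : W →ₗ[ℝ] W := s.toLinearMap - s'.toLinearMap
  have hNx : ∀ x, N x = s x - s' x := fun x => rfl
  have key : ∀ A B : Submodule ℝ W, A ≤ (KK s)ᗮ → (∀ x ∈ A, N x ∈ B) →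
      finrank ℝ A ≤ finrank ℝ B := by
    intro A B hA hAB
    have hinj : Function.Injective ((N.restrict hAB)) := by
      rw [← LinearMap.ker_eq_bot, LinearMap.ker_eq_bot']
      rintro ⟨x, hx⟩ h
      have h1 : N x = 0 := congrArg Subtype.val h
      exact Subtype.ext (H.N_inj (hA hx) h1)
    exact LinearMap.finrank_le_finrank_of_injective hinj
  apply le_antisymm
  · apply key (Ep s (t i)) (Em s (t i)) inf_le_left
    intro x hx
    rw [mem_Ep] at hx
    rw [mem_Em, hNx]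
    refine ⟨H.N_perp hx.1, ?_⟩
    rw [hN, hx.2]
  · apply key (Em s (t i)) (Ep s (t i)) inf_le_left
    intro x hx
    rw [mem_Em] at hx
    rw [mem_Ep, hNx]
    refine ⟨H.N_perp hx.1, ?_⟩
    rw [hN, hx.2, map_neg, map_neg]
    abel

/-- two commuting involutions which invert `s` agree up to sign on the plane `Pi` -/
lemma Rels.pair (H : Rels m t s s') (h2 : finrank ℝ (KK s)ᗮ ≤ 2) {i j : ℕ} (hi : i < m)
    (hj : j < m) (hij : i + 2 ≤ j ∨ j + 2 ≤ i) :
    ∃ ε : ℝ, (ε = 1 ∨ ε = -1) ∧ ∀ x ∈ (KK s)ᗮ, t j x = ε • t i x := by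
  obtain ⟨e1, e2⟩ := H.finrank_E hi
  have hd : finrank ℝ (Ep s (t i)) ≤ 1 := by omega
  have hc := H.comm' hi.le hj.le hij
  obtain ⟨ε, hε, h⟩ := scal1 (t j) (Ep s (t i)) (by
    intro x hx
    rw [mem_Ep] at hx ⊢
    refine ⟨perp_inv (t j) _ (H.KK_t hj) x hx.1, ?_⟩
    rw [hc, hx.2]) hd
  refine ⟨ε, hε, ?_⟩
  have hN : ∀ k < m, ∀ x, t k (s x - s' x) = -(s (t k x) - s' (t k x)) := by
    intro k hk x
    rw [map_sub, H.dih k hk, H.dih' k hk]
    abel_nf
  intro x hx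
  -- decompose
  have hti : t i x ∈ (KK s)ᗮ := perp_inv (t i) _ (H.KK_t hi) x hx
  obtain ⟨a, ha⟩ : ∃ a : W, a = (1 / 2 : ℝ) • (x + t i x) := ⟨_, rfl⟩
  obtain ⟨b, hb⟩ : ∃ b : W, b = (1 / 2 : ℝ) • (x - t i x) := ⟨_, rfl⟩
  have hab : x = a + b := by
    rw [ha, hb, ← smul_add]
    have : x + t i x + (x - t i x) = (2 : ℝ) • x := by rw [two_smul]; abel
    rw [this, smul_smul]; norm_num
  have haE : a ∈ Ep s (t i) := by
    rw [mem_Ep]
    refine ⟨by rw [ha]; exact Submodule.smul_mem _ _ (Submodule.add_mem _ hx hti), ?_⟩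
    rw [ha, map_smul, map_add, H.inv i hi.le, add_comm]
  have hbE : b ∈ Em s (t i) := by
    rw [mem_Em]
    refine ⟨by rw [hb]; exact Submodule.smul_mem _ _ (Submodule.sub_mem _ hx hti), ?_⟩
    rw [hb, map_smul, map_sub, H.inv i hi.le, ← smul_neg, neg_sub]
  have hNb : s b - s' b ∈ Ep s (t i) := by
    rw [mem_Ep]
    refine ⟨H.N_perp (mem_Em.1 hbE).1, ?_⟩
    rw [hN i hi, (mem_Em.1 hbE).2, map_neg, map_neg]
    abel
  have h3 := h _ hNb
  rw [hN j hj] at h3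
  have h4 : t j b = -(ε • b) := by
    have h5 : t j b + ε • b = 0 := by
      apply H.N_inj
      · exact Submodule.add_mem _ (perp_inv (t j) _ (H.KK_t hj) b (mem_Em.1 hbE).1)
          (Submodule.smul_mem _ _ (mem_Em.1 hbE).1)
      · rw [map_add, map_add, map_smul, map_smul]
        have h6 : s (t j b) - s' (t j b) = -(ε • (s b - s' b)) := by
          rw [← h3]; abel
        have h7 : s (t j b) + ε • s b - (s' (t j b) + ε • s' b) =
            (s (t j b) - s' (t j b)) + ε • (s b - s' b) := by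
          rw [smul_sub]; abel
        rw [h7, h6]; abel
    exact eq_neg_of_add_eq_zero_left h5
  have h8 : t i x = a - b := by
    rw [hab, map_add, (mem_Ep.1 haE).2, (mem_Em.1 hbE).2]; abel
  rw [h8, smul_sub]
  conv_lhs => rw [hab]
  rw [map_add, h a haE, h4]
  abel

/-- all the involutions which invert `s` agree up to sign on the plane `Pi` -/
lemma Rels.all (H : Rels m t s s') (hm : 4 ≤ m) (h2 : finrank ℝ (KK s)ᗮ ≤ 2) :
    ∀ j < m, ∃ ε : ℝ, (ε = 1 ∨ ε = -1) ∧ ∀ x ∈ (KK s)ᗮ, t j x = ε • t 0 x := by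
  intro j hj
  by_cases hj2 : 2 ≤ j
  · exact H.pair h2 (by omega) hj (by omega)
  · by_cases hj0 : j = 0
    · subst hj0
      exact ⟨1, Or.inl rfl, fun x _ => by rw [one_smul]⟩
    · have hj1 : j = 1 := by omega
      subst hj1
      obtain ⟨e, he, h⟩ := H.pair h2 (i := 0) (j := 3) (by omega) (by omega) (by omega)
      obtain ⟨f, hf, h'⟩ := H.pair h2 (i := 3) (j := 1) (by omega) (by omega) (by omega)
      refine ⟨f * e, ?_, ?_⟩
      · rcases he with rfl | rfl <;> rcases hf with rfl | rfl <;> norm_num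
      · intro x hx
        rw [h' x hx, h x hx, smul_smul]

lemma smulIso (g : W →ₗᵢ[ℝ] W) {ε : ℝ} (hε : ε = 1 ∨ ε = -1) :
    ∃ r : W →ₗᵢ[ℝ] W, ∀ x, r x = ε • g x := by
  refine ⟨⟨ε • g.toLinearMap, ?_⟩, fun x => rfl⟩
  intro x
  change ‖ε • g x‖ = ‖x‖
  rw [norm_smul, g.norm_map]
  rcases hε with rfl | rfl <;> simp

lemma Rels.s'_of_fix (H : Rels m t s s') {x : W} (h : s x = x) : s' x = x := by
  conv_lhs => rw [← h]
  rw [H.s's]

/-- CORE: an isometry which commutes with the `t j` and inverts `s` -/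
theorem core (H : Rels m t s s') (hm : 4 ≤ m) (A0 A1 A2 : Submodule ℝ W)
    (hA0 : ∀ x, x ∈ A0 ↔ s x = x) (hA1 : ∀ x, x ∈ A1 ↔ s x = x ∧ t m x = x)
    (hA2 : ∀ x, x ∈ A2 ↔ s x = x ∧ t m x = x ∧ t (m - 1) x = x)
    (d0 : finrank ℝ W ≤ finrank ℝ A0 + 3) (d1 : finrank ℝ W ≤ finrank ℝ A1 + 4)
    (d2 : finrank ℝ W ≤ finrank ℝ A2 + 5) :
    ∃ S : W →ₗᵢ[ℝ] W, (∀ j ≤ m, ∀ x, S (t j x) = t j (S x)) ∧ (∀ x, S (s x) = s' (S x)) ∧
      ∀ x ∈ A1, S x = x := by
  have o0 := A0.finrank_add_finrank_orthogonal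
  have o1 := A1.finrank_add_finrank_orthogonal
  have o2 := A2.finrank_add_finrank_orthogonal
  have hA10 : A1 ≤ A0 := fun x hx => (hA0 x).2 ((hA1 x).1 hx).1
  have hA21 : A2 ≤ A1 := fun x hx => (hA1 x).2 ⟨((hA2 x).1 hx).1, ((hA2 x).1 hx).2.1⟩
  have hA0K : A0 ≤ KK s := fun x hx => by
    have := (hA0 x).1 hx
    rw [mem_KK, this, this]
  have hKA0 : (KK s)ᗮ ≤ A0ᗮ := Submodule.orthogonal_le hA0K
  obtain ⟨e1, e2⟩ := H.finrank_E (i := 0) (by omega)
  have hKle : finrank ℝ (KK s)ᗮ ≤ finrank ℝ A0ᗮ := Submodule.finrank_mono hKA0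
  have hK2 : finrank ℝ (KK s)ᗮ ≤ 2 := by omega
  -- invariance
  have iA0 : ∀ j < m, ∀ x ∈ A0, t j x ∈ A0 := by
    intro j hj x hx
    rw [hA0] at hx ⊢
    rw [H.dih' j hj, H.s'_of_fix hx]
  have iA1 : ∀ j, j + 2 ≤ m → ∀ x ∈ A1, t j x ∈ A1 := by
    intro j hj x hx
    rw [hA1] at hx ⊢
    refine ⟨by rw [H.dih' j (by omega), H.s'_of_fix hx.1], ?_⟩
    rw [← H.comm j m (by omega) le_rfl hj, hx.2]
  have iA2 : ∀ j, j + 3 ≤ m → ∀ x ∈ A2, t j x ∈ A2 := by
    intro j hj x hx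
    rw [hA2] at hx ⊢
    refine ⟨by rw [H.dih' j (by omega), H.s'_of_fix hx.1], ?_, ?_⟩
    · rw [← H.comm j m (by omega) le_rfl (by omega), hx.2.1]
    · rw [← H.comm j (m - 1) (by omega) (by omega) (by omega), hx.2.2]
  have tmA1 : ∀ x ∈ A1ᗮ, t m x ∈ A1ᗮ :=
    perp_inv _ _ fun x hx => by rw [((hA1 x).1 hx).2]; exact hx
  have sA0 : ∀ x ∈ A0ᗮ, s x ∈ A0ᗮ :=
    perp_inv _ _ fun x hx => by rw [(hA0 x).1 hx]; exact hx
  have sA1 : ∀ x ∈ A1ᗮ, s x ∈ A1ᗮ :=
    perp_inv _ _ fun x hx => by rw [((hA1 x).1 hx).1]; exact hx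
  -- trivial case
  by_cases hK0 : finrank ℝ (KK s)ᗮ = 0
  · have hbot : (KK s)ᗮ = ⊥ := Submodule.finrank_eq_zero.1 hK0
    have htop : KK s = ⊤ := Submodule.orthogonal_eq_bot_iff.1 hbot
    refine ⟨LinearIsometry.id, fun j _ x => rfl, fun x => ?_, fun x _ => rfl⟩
    change s x = s' x
    rw [H.eq_iff, ← mem_KK, htop]
    exact Submodule.mem_top
  have hK2' : finrank ℝ (KK s)ᗮ = 2 := by omega
  have hKK : (KK s)ᗮᗮ = KK s := Submodule.orthogonal_orthogonal _
  -- the involutions commute on `A0ᗮ`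
  have comm0 : ∀ i j, i < m → j < m → ∀ x ∈ A0ᗮ, t i (t j x) = t j (t i x) := by
    have hell : finrank ℝ ((KK s)ᗮᗮ ⊓ A0ᗮ : Submodule ℝ W) ≤ 1 := by
      have := Submodule.finrank_add_inf_finrank_orthogonal hKA0
      omega
    intro i j hi hj x hx
    obtain ⟨y, hy, z, hz, rfl⟩ := (KK s)ᗮ.exists_add_mem_mem_orthogonal x
    have hzz : z ∈ ((KK s)ᗮᗮ ⊓ A0ᗮ : Submodule ℝ W) := by
      refine ⟨hz, ?_⟩
      have := Submodule.sub_mem _ hx (hKA0 hy)
      simpa using this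
    have hinv : ∀ k < m, ∀ w ∈ ((KK s)ᗮᗮ ⊓ A0ᗮ : Submodule ℝ W),
        t k w ∈ ((KK s)ᗮᗮ ⊓ A0ᗮ : Submodule ℝ W) := by
      intro k hk w hw
      refine ⟨?_, perp_inv (t k) _ (iA0 k hk) w hw.2⟩
      have h1 := hw.1
      rw [hKK] at h1 ⊢
      exact H.KK_t hk w h1
    obtain ⟨a, ha, ha'⟩ := scal1 (t i) _ (hinv i hi) hell
    obtain ⟨b, hb, hb'⟩ := scal1 (t j) _ (hinv j hj) hell
    obtain ⟨c, hc, hc'⟩ := H.all hm hK2 i hi
    obtain ⟨d, hd, hd'⟩ := H.all hm hK2 j hj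
    have hy0 : t 0 y ∈ (KK s)ᗮ := perp_inv (t 0) _ (H.KK_t (by omega)) y hy
    simp only [map_add]
    rw [hd' y hy, hc' y hy, map_smul, map_smul, hc' _ hy0, hd' _ hy0, H.inv 0 (by omega),
      hb' z hzz, ha' z hzz, map_smul, map_smul, ha' z hzz, hb' z hzz, smul_smul, smul_smul,
      smul_smul, smul_smul, mul_comm a b, mul_comm c d]
  -- the space L
  have hL := Submodule.finrank_add_inf_finrank_orthogonal hA10
  have hA0A1 : A0ᗮ ≤ A1ᗮ := Submodule.orthogonal_le hA10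
  have hA1A2 : A1ᗮ ≤ A2ᗮ := Submodule.orthogonal_le hA21
  by_cases hLd : finrank ℝ (A1ᗮ ⊓ A0 : Submodule ℝ W) ≤ 1
  · -- case alpha
    obtain ⟨ε, hε, he⟩ := scal1 (t 0) (A1ᗮ ⊓ A0) (by
      intro x hx
      exact ⟨perp_inv (t 0) _ (iA1 0 (by omega)) x hx.1, iA0 0 (by omega) x hx.2⟩) hLd
    obtain ⟨r, hr⟩ := smulIso (t 0) hε
    have hεε : ε * ε = 1 := by rcases hε with rfl | rfl <;> norm_num
    have hrU : ∀ x ∈ A0ᗮ, r x ∈ A0ᗮ := fun x hx => by
      rw [hr]; exact Submodule.smul_mem _ _ (perp_inv (t 0) _ (iA0 0 (by omega)) x hx)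
    have hrU1 : ∀ x ∈ A1ᗮ, r x ∈ A1ᗮ := fun x hx => by
      rw [hr]; exact Submodule.smul_mem _ _ (perp_inv (t 0) _ (iA1 0 (by omega)) x hx)
    obtain ⟨S, hS, hS'⟩ := mkS A0ᗮ r hrU
    have hA0' : A0ᗮᗮ = A0 := Submodule.orthogonal_orthogonal _
    have hA1' : A1ᗮᗮ = A1 := Submodule.orthogonal_orthogonal _
    have hS1 : ∀ x ∈ A1ᗮ, S x = r x := by
      intro x hx
      obtain ⟨y, hy, z, hz, rfl⟩ := A0ᗮ.exists_add_mem_mem_orthogonal x
      have hz2 : z ∈ A1ᗮ := by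
        have := Submodule.sub_mem _ hx (hA0A1 hy)
        simpa using this
      have hz1 : z ∈ A0 := by rw [← hA0']; exact hz
      rw [map_add, map_add, hS y hy, hS' z hz, hr z, he z ⟨hz2, hz1⟩, smul_smul, hεε, one_smul]
    have hS1' : ∀ x ∈ A1ᗮᗮ, S x = x := by
      intro x hx
      apply hS'
      rw [hA0']
      rw [hA1'] at hx
      exact hA10 hx
    refine ⟨S, ?_, ?_, ?_⟩
    · intro j hj
      rcases Nat.lt_or_ge j m with hj' | hj'
      · exact S_comm hrU hS hS' (perp_inv (t j) _ (iA0 j hj')) fun x hx => by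
          rw [hr, hr, map_smul, comm0 0 j (by omega) hj' x hx]
      · have : j = m := by omega
        subst this
        exact S_comm hrU1 hS1 hS1' tmA1 fun x hx => by
          rw [hr, hr, map_smul, H.comm 0 j (by omega) le_rfl (by omega)]
    · apply S_inv hS hS' sA0
      · intro x _
        rw [hr, hr, map_smul, H.dih 0 (by omega)]
      · intro x hx
        rw [hA0', hA0] at hx
        rw [hx, H.s'_of_fix hx]
    · intro x hx
      apply hS1'
      rw [hA1']; exact hx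
  · -- dim L = 2
    push Not at hLd
    have hA0d : finrank ℝ A0ᗮ = 2 := by omega
    have hA0eq : (KK s)ᗮ = A0ᗮ := Submodule.eq_of_le_of_finrank_eq hKA0 (by omega)
    have hA0' : A0ᗮᗮ = A0 := Submodule.orthogonal_orthogonal _
    have hA1' : A1ᗮᗮ = A1 := Submodule.orthogonal_orthogonal _
    have hKA : KK s = A0 := by rw [← hKK, hA0eq, hA0']
    have hLd2 : finrank ℝ (A1ᗮ ⊓ A0 : Submodule ℝ W) = 2 := by omega
    -- decomposition of A1ᗮ
    have dec : ∀ x ∈ A1ᗮ, ∃ y ∈ A0ᗮ, ∃ z ∈ (A1ᗮ ⊓ A0 : Submodule ℝ W), x = y + z := by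
      intro x hx
      obtain ⟨y, hy, z, hz, rfl⟩ := A0ᗮ.exists_add_mem_mem_orthogonal x
      have hz2 : z ∈ A1ᗮ := by
        have := Submodule.sub_mem _ hx (hA0A1 hy)
        simpa using this
      exact ⟨y, hy, z, ⟨hz2, by rw [← hA0']; exact hz⟩, rfl⟩
    let C : Submodule ℝ W := LinearMap.eqLocus ((t 0).toLinearMap ∘ₗ (t 1).toLinearMap)
      ((t 1).toLinearMap ∘ₗ (t 0).toLinearMap)
    have hC : ∀ x, x ∈ C ↔ t 0 (t 1 x) = t 1 (t 0 x) := fun x => Iff.rfl
    by_cases hLC : (A1ᗮ ⊓ A0 : Submodule ℝ W) ≤ C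
    · -- case beta
      have hA1C : ∀ x ∈ A1ᗮ, t 0 (t 1 x) = t 1 (t 0 x) := by
        intro x hx
        obtain ⟨y, hy, z, hz, rfl⟩ := dec x hx
        simp only [map_add]
        rw [comm0 0 1 (by omega) (by omega) y hy, (hC z).1 (hLC hz)]
      have hM : finrank ℝ (A1ᗮᗮ ⊓ A2ᗮ : Submodule ℝ W) ≤ 1 := by
        have := Submodule.finrank_add_inf_finrank_orthogonal hA1A2
        omega
      obtain ⟨ε, hε, he⟩ := scal1 (t 0) (A1ᗮᗮ ⊓ A2ᗮ) (by
        intro x hx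
        refine ⟨?_, perp_inv (t 0) _ (iA2 0 (by omega)) x hx.2⟩
        have h1 := hx.1
        rw [hA1'] at h1 ⊢
        exact iA1 0 (by omega) x h1) hM
      obtain ⟨r, hr⟩ := smulIso (t 0) hε
      have hεε : ε * ε = 1 := by rcases hε with rfl | rfl <;> norm_num
      have hrU : ∀ x ∈ A1ᗮ, r x ∈ A1ᗮ := fun x hx => by
        rw [hr]; exact Submodule.smul_mem _ _ (perp_inv (t 0) _ (iA1 0 (by omega)) x hx)
      have hrU2 : ∀ x ∈ A2ᗮ, r x ∈ A2ᗮ := fun x hx => by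
        rw [hr]; exact Submodule.smul_mem _ _ (perp_inv (t 0) _ (iA2 0 (by omega)) x hx)
      obtain ⟨S, hS, hS'⟩ := mkS A1ᗮ r hrU
      have hS2 : ∀ x ∈ A2ᗮ, S x = r x := by
        intro x hx
        obtain ⟨y, hy, z, hz, rfl⟩ := A1ᗮ.exists_add_mem_mem_orthogonal x
        have hz2 : z ∈ A2ᗮ := by
          have := Submodule.sub_mem _ hx (hA1A2 hy)
          simpa using this
        rw [map_add, map_add, hS y hy, hS' z hz, hr z, he z ⟨hz, hz2⟩, smul_smul, hεε, one_smul]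
      have hS2' : ∀ x ∈ A2ᗮᗮ, S x = x := by
        intro x hx
        apply hS'
        rw [hA1']
        rw [Submodule.orthogonal_orthogonal] at hx
        exact hA21 hx
      refine ⟨S, ?_, ?_, ?_⟩
      · intro j hj
        by_cases hj1 : j + 2 ≤ m
        · exact S_comm hrU hS hS' (perp_inv (t j) _ (iA1 j hj1)) fun x hx => by
            rw [hr, hr, map_smul]
            congr 1
            rcases Nat.lt_or_ge j 2 with h | h
            · rcases (by omega : j = 0 ∨ j = 1) with rfl | rfl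
              · rfl
              · exact hA1C x hx
            · exact H.comm 0 j (by omega) hj h x
        · rcases (by omega : j = m - 1 ∨ j = m) with rfl | rfl
          · exact S_comm hrU2 hS2 hS2' (perp_inv _ _ fun x hx => by
              rw [((hA2 x).1 hx).2.2]; exact hx) fun x hx => by
                rw [hr, hr, map_smul, H.comm 0 (m - 1) (by omega) (by omega) (by omega)]
          · exact S_comm hrU hS hS' tmA1 fun x hx => by
              rw [hr, hr, map_smul, H.comm 0 j (by omega) le_rfl (by omega)]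
      · apply S_inv hS hS' sA1
        · intro x _
          rw [hr, hr, map_smul, H.dih 0 (by omega)]
        · intro x hx
          rw [hA1', hA1] at hx
          rw [hx.1, H.s'_of_fix hx.1]
      · intro x hx
        apply hS'
        rw [hA1']; exact hx
    · -- case gamma
      have hLt : ∀ k, k ≤ 1 → ∀ x ∈ (A1ᗮ ⊓ A0 : Submodule ℝ W),
          t k x ∈ (A1ᗮ ⊓ A0 : Submodule ℝ W) := fun k hk x hx =>
        ⟨perp_inv (t k) _ (iA1 k (by omega)) x hx.1, iA0 k (by omega) x hx.2⟩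
      have hCt : ∀ k, k ≤ 1 → ∀ x ∈ C, t k x ∈ C := by
        intro k hk x hx
        rw [hC] at hx ⊢
        rcases (by omega : k = 0 ∨ k = 1) with rfl | rfl
        · rw [← hx, H.inv 0 (by omega), H.inv 0 (by omega)]
        · rw [hx, H.inv 1 (by omega), H.inv 1 (by omega)]
      have hF : (A1ᗮ ⊓ A0 : Submodule ℝ W) ⊓ C = ⊥ := by
        by_contra hne
        have h1 : 1 ≤ finrank ℝ ((A1ᗮ ⊓ A0 : Submodule ℝ W) ⊓ C : Submodule ℝ W) := by
          rw [Nat.one_le_iff_ne_zero]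
          intro h
          exact hne (Submodule.finrank_eq_zero.1 h)
        have hFL : (A1ᗮ ⊓ A0 : Submodule ℝ W) ⊓ C ≤ (A1ᗮ ⊓ A0 : Submodule ℝ W) := inf_le_left
        have h2 : finrank ℝ ((A1ᗮ ⊓ A0 : Submodule ℝ W) ⊓ C : Submodule ℝ W) < 2 := by
          by_contra h
          push Not at h
          have := Submodule.eq_of_le_of_finrank_le hFL (by omega)
          apply hLC
          rw [← this]
          exact inf_le_right
        have h3 := Submodule.finrank_add_inf_finrank_orthogonal hFL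
        set F : Submodule ℝ W := (A1ᗮ ⊓ A0 : Submodule ℝ W) ⊓ C with hFdef
        have h4 : finrank ℝ (Fᗮ ⊓ (A1ᗮ ⊓ A0) : Submodule ℝ W) = 1 := by omega
        have hFt : ∀ k, k ≤ 1 → ∀ x ∈ F, t k x ∈ F := fun k hk x hx =>
          ⟨hLt k hk x hx.1, hCt k hk x hx.2⟩
        have hGt : ∀ k, k ≤ 1 → ∀ x ∈ (Fᗮ ⊓ (A1ᗮ ⊓ A0) : Submodule ℝ W),
            t k x ∈ (Fᗮ ⊓ (A1ᗮ ⊓ A0) : Submodule ℝ W) := fun k hk x hx =>
          ⟨perp_inv (t k) _ (hFt k hk) x hx.1, hLt k hk x hx.2⟩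
        obtain ⟨a, ha, ha'⟩ := scal1 (t 0) _ (hGt 0 (by omega)) h4.le
        obtain ⟨b, hb, hb'⟩ := scal1 (t 1) _ (hGt 1 le_rfl) h4.le
        have h5 : (Fᗮ ⊓ (A1ᗮ ⊓ A0) : Submodule ℝ W) = ⊥ := by
          rw [Submodule.eq_bot_iff]
          intro x hx
          have hxC : x ∈ C := by
            rw [hC, ha' x hx, hb' x hx, map_smul, map_smul, ha' x hx, hb' x hx, smul_comm]
          have hxF : x ∈ F := ⟨hx.2, hxC⟩
          exact inner_self_eq_zero.1 ((Submodule.mem_orthogonal _ _).1 hx.1 x hxF)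
        rw [h5, finrank_bot] at h4
        omega
      have tmK : ∀ x ∈ (KK s)ᗮ, t m x ∈ (KK s)ᗮ := by
        intro x hx
        rw [hA0eq] at hx ⊢
        have h1 : t m x ∈ A1ᗮ := tmA1 x (hA0A1 hx)
        obtain ⟨y, hy, z, hz, hyz⟩ := dec _ h1
        have h2 : t m x ∈ C := by
          rw [hC, H.comm 1 m (by omega) le_rfl (by omega), H.comm 0 m (by omega) le_rfl (by omega),
            comm0 0 1 (by omega) (by omega) x hx, ← H.comm 1 m (by omega) le_rfl (by omega),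
            ← H.comm 0 m (by omega) le_rfl (by omega)]
        have h3 : y ∈ C := comm0 0 1 (by omega) (by omega) y hy
        have h4 : z ∈ C := by
          have := Submodule.sub_mem _ h2 h3
          rw [hyz] at this
          simpa using this
        have h5 : z ∈ (A1ᗮ ⊓ A0 : Submodule ℝ W) ⊓ C := ⟨hz, h4⟩
        rw [hF, Submodule.mem_bot] at h5
        rw [hyz, h5, add_zero]
        exact hy
      have hrU : ∀ x ∈ (KK s)ᗮ, t 0 x ∈ (KK s)ᗮ := perp_inv (t 0) _ (H.KK_t (by omega))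
      obtain ⟨S, hS, hS'⟩ := mkS (KK s)ᗮ (t 0) hrU
      refine ⟨S, ?_, ?_, ?_⟩
      · intro j hj
        rcases Nat.lt_or_ge j m with hj' | hj'
        · exact S_comm hrU hS hS' (perp_inv (t j) _ (H.KK_t hj')) fun x hx =>
            comm0 0 j (by omega) hj' x (hKA0 hx)
        · have : j = m := by omega
          subst this
          exact S_comm hrU hS hS' tmK fun x hx => H.comm 0 j (by omega) le_rfl (by omega) x
      · apply S_inv hS hS' (perp_inv s _ H.KK_s)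
        · intro x _
          exact H.dih 0 (by omega) x
        · intro x hx
          rw [hKK, mem_KK] at hx
          exact (H.eq_iff x).2 hx
      · intro x hx
        apply hS'
        rw [hKK, hKA]
        exact hA10 hx

end

end ChiralNF
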