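import Mathlib

/-!
# MP_bc704c_co: abstract polytopes, faithful discrete realizations, chirality
-/

namespace ChiralNF

universe u

/-- Two flags (maximal chains) are adjacent if they differ in exactly one face. -/
def Adjacent {F : Type u} [PartialOrder F] (A B : Flag F) : Prop :=
  ∃ a b : F, a ∈ A ∧ a ∉ B ∧ b ∈ B ∧ b ∉ A ∧ ∀ c : F, c ≠ a → c ≠ b → (c ∈ A ↔ c ∈ B)

/-- The poset `F` of faces, with rank function `rk`, is an abstract polytope of rank `n`: it has a
least face (of rank `-1`) and a greatest face (of rank `n`), the rank is strictly monotone, every flag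
(maximal chain) has a face of each rank `-1, ..., n` (so it has length `n + 2`), the diamond condition
holds, and any two flags are connected by a sequence of flags, each adjacent to the previous one, all
of which contain the common faces of the two flags (strong connectivity). -/
structure IsPolytope (n : ℕ) (F : Type u) [PartialOrder F] [BoundedOrder F] (rk : F → ℤ) :
    Prop where
  rk_bot : rk ⊥ = -1
  rk_top : rk ⊤ = n
  rk_mono : StrictMono rk
  flag_rank : ∀ (A : Flag F) (i : ℤ), -1 ≤ i → i ≤ n → ∃ a ∈ A, rk a = i
  diamond : ∀ a b : F, a < b → rk b = rk a + 2 → {c : F | a < c ∧ c < b}.ncard = 2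
  connected : ∀ A B : Flag F, Relation.ReflTransGen
    (fun C D : Flag F => Adjacent C D ∧ ∀ c : F, c ∈ A → c ∈ B → c ∈ D) A B

/-- The set of points of the vertices of the face `a`; vertices are the faces of rank `0`. -/
def vset {F : Type u} [PartialOrder F] (rk : F → ℤ) {d : ℕ}
    (β : F → EuclideanSpace ℝ (Fin d)) (a : F) : Set (EuclideanSpace ℝ (Fin d)) :=
  β '' {x : F | rk x = 0 ∧ x ≤ a}

/-- `β` (of which only the values at the vertices matter) is a faithful discrete realization: it is
injective on the vertices, its image is discrete, and distinct faces have distinct vertex sets. -/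
structure IsRealization {F : Type u} [PartialOrder F] (rk : F → ℤ) {d : ℕ}
    (β : F → EuclideanSpace ℝ (Fin d)) : Prop where
  inj : ∀ x y : F, rk x = 0 → rk y = 0 → β x = β y → x = y
  discrete : DiscreteTopology (β '' {x : F | rk x = 0})
  faithful : ∀ a b : F, vset rk β a = vset rk β b → a = b

/-- The isometry `g` maps the realization onto itself and induces the automorphism `φ`. -/
def IsSymmetry {F : Type u} [PartialOrder F] (rk : F → ℤ) {d : ℕ}
    (β : F → EuclideanSpace ℝ (Fin d))
    (g : EuclideanSpace ℝ (Fin d) ≃ᵢ EuclideanSpace ℝ (Fin d)) (φ : F ≃o F) : Prop :=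
  ∀ x : F, rk x = 0 → g (β x) = β (φ x)

/-- The flags `A` and `B` lie in the same orbit of the symmetry group of the realization. -/
def SameOrbit {F : Type u} [PartialOrder F] (rk : F → ℤ) {d : ℕ}
    (β : F → EuclideanSpace ℝ (Fin d)) (A B : Flag F) : Prop :=
  ∃ (g : EuclideanSpace ℝ (Fin d) ≃ᵢ EuclideanSpace ℝ (Fin d)) (φ : F ≃o F),
    IsSymmetry rk β g φ ∧ ∀ c : F, c ∈ A ↔ φ c ∈ B

/-- Geometric chirality: there are exactly two orbits on the flags and adjacent flags lie in
different orbits. -/
def IsChiral {F : Type u} [PartialOrder F] (rk : F → ℤ) {d : ℕ}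
    (β : F → EuclideanSpace ℝ (Fin d)) : Prop :=
  (∃ A B : Flag F, ¬ SameOrbit rk β A B ∧ ∀ C : Flag F, SameOrbit rk β C A ∨ SameOrbit rk β C B) ∧
    ∀ A B : Flag F, Adjacent A B → ¬ SameOrbit rk β A B

/-- A polytope of rank `n` in `E^d` with face poset `F` has nearly full rank: it is either a finite
`(d-1)`-polytope or an infinite `d`-polytope. -/
def NearlyFullRank (n d : ℕ) (F : Type u) : Prop :=
  (Finite F ∧ n + 1 = d) ∨ (Infinite F ∧ n = d)

end ChiralNF
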