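import Pool.Agent.Lib.MP_bc704c_co.Lin

set_option linter.unusedSectionVars false
set_option linter.unusedVariables false

namespace ChiralNF

open Module

universe u

variable {n : ℕ} {F : Type u} [PartialOrder F] [BoundedOrder F] {rk : F → ℤ}
variable {d : ℕ} {β : F → EuclideanSpace ℝ (Fin d)}

/-- the distinguished symmetries of a base flag -/
structure Dist (hP : IsPolytope n F rk) (β : F → EuclideanSpace ℝ (Fin d)) (Φ : SF n F rk)
    (φ : ℤ → F ≃o F) (g : ℤ → EuclideanSpace ℝ (Fin d) ≃ᵢ EuclideanSpace ℝ (Fin d)) : Prop where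
  sym : ∀ i : ℤ, IsSymmetry rk β (g i) (φ i)
  img : ∀ i : ℤ, 0 ≤ i → i < n → act hP (φ i) Φ = adj hP (n - 1) (adj hP i Φ)

theorem exists_dist (hP : IsPolytope n F rk) (hn : 1 ≤ n) (hc : IsChiral rk β) :
    ∃ Φ φ g, Dist hP β Φ φ g := by
  classical
  obtain ⟨Φ, _⟩ := hP.exists_chain (C := ∅) Set.subsingleton_empty.isChain
  have h : ∀ i : ℤ, ∃ (g : EuclideanSpace ℝ (Fin d) ≃ᵢ EuclideanSpace ℝ (Fin d)) (φ : F ≃o F),
      IsSymmetry rk β g φ ∧ (0 ≤ i → i < n → act hP φ Φ = adj hP (n - 1) (adj hP i Φ)) := by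
    intro i
    by_cases hi : 0 ≤ i ∧ i < n
    · obtain ⟨g, φ, h1, h2⟩ := (chiral_seq hP hc).2 Φ i (n - 1) hi.1 hi.2 (by omega) (by omega)
      exact ⟨g, φ, h1, fun _ _ => h2⟩
    · exact ⟨IsometryEquiv.refl _, OrderIso.refl F, isSymmetry_refl, fun h1 h2 => absurd ⟨h1, h2⟩ hi⟩
  choose g φ h1 h2 using h
  exact ⟨Φ, φ, g, h1, h2⟩

variable {hP : IsPolytope n F rk} {Φ : SF n F rk} {φ : ℤ → F ≃o F}
  {g : ℤ → EuclideanSpace ℝ (Fin d) ≃ᵢ EuclideanSpace ℝ (Fin d)}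

theorem act_refl (A : SF n F rk) : act hP (OrderIso.refl F) A = A := by
  apply SF.ext'
  intro i _ _
  rfl

theorem Dist.face (D : Dist hP β Φ φ g) {i j : ℤ} (h0 : 0 ≤ i) (hn : i < n) (hj : j ≠ i)
    (hj' : j ≠ n - 1) : φ i (Φ.f j) = Φ.f j := by
  have h := congrArg (fun T : SF n F rk => T.f j) (D.img i h0 hn)
  simp only [act_f] at h
  rw [h, adj_eq hP _ hj', adj_eq hP _ hj]

theorem Dist.move (D : Dist hP β Φ φ g) {i : ℤ} (h0 : 0 ≤ i) (hn : i < n) (hi : i ≠ n - 1) :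
    φ i (Φ.f i) ≠ Φ.f i := by
  have h := congrArg (fun T : SF n F rk => T.f i) (D.img i h0 hn)
  simp only [act_f] at h
  rw [h, adj_eq hP _ hi]
  exact adj_ne hP h0 hn Φ

theorem Dist.img' (D : Dist hP β Φ φ g) {i : ℤ} (h0 : 0 ≤ i) (hn : i < n) :
    adj hP i Φ = act hP (φ i) (adj hP (n - 1) Φ) := by
  rw [act_adj, D.img i h0 hn, adj_adj]

theorem act_symm_act (ψ : F ≃o F) (A : SF n F rk) : act hP ψ.symm (act hP ψ A) = A := by
  apply SF.ext'
  intro i _ _
  rw [act_f, act_f]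
  exact ψ.symm_apply_apply _

theorem Dist.img_symm (D : Dist hP β Φ φ g) {i : ℤ} (h0 : 0 ≤ i) (hn : i < n) :
    adj hP i (adj hP (n - 1) Φ) = act hP (φ i).symm Φ := by
  have h1 : act hP (φ i).symm (adj hP i Φ) = adj hP (n - 1) Φ := by
    rw [D.img' h0 hn, act_symm_act]
  rw [act_adj] at h1
  rw [← h1, adj_adj]

theorem Dist.inv (D : Dist hP β Φ φ g) {j : ℤ} (h0 : 0 ≤ j) (hj : j + 3 ≤ n) (x : F) :
    φ j (φ j x) = x := by
  have h : act hP ((φ j).trans (φ j)) Φ = act hP (OrderIso.refl F) Φ := by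
    rw [act_trans, act_refl, D.img j h0 (by omega), act_adj, act_adj, D.img j h0 (by omega),
      adj_comm hP (show j + 2 ≤ (n : ℤ) - 1 by omega), adj_adj, adj_adj]
  exact act_ext hP h x

theorem Dist.inv_symm (D : Dist hP β Φ φ g) {j : ℤ} (h0 : 0 ≤ j) (hj : j + 3 ≤ n) (x : F) :
    (φ j).symm x = φ j x := by
  rw [OrderIso.symm_apply_eq, D.inv h0 hj]

theorem Dist.comm (D : Dist hP β Φ φ g) {i j : ℤ} (h0 : 0 ≤ i) (hij : i + 2 ≤ j)
    (hj : j + 3 ≤ n) (x : F) : φ i (φ j x) = φ j (φ i x) := by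
  have h : act hP ((φ j).trans (φ i)) Φ = act hP ((φ i).trans (φ j)) Φ := by
    rw [act_trans, act_trans, D.img j (by omega) (by omega), D.img i (by omega) (by omega),
      act_adj, act_adj, act_adj, act_adj, D.img j (by omega) (by omega),
      D.img i (by omega) (by omega),
      adj_comm hP (show j + 2 ≤ (n : ℤ) - 1 by omega), adj_adj,
      adj_comm hP (show i + 2 ≤ (n : ℤ) - 1 by omega), adj_adj, adj_comm hP hij]
  exact act_ext hP h x

theorem Dist.dih (D : Dist hP β Φ φ g) {j : ℤ} (h0 : 0 ≤ j) (hj : j + 4 ≤ n) (x : F) :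
    φ j (φ (n - 2) x) = (φ (n - 2)).symm (φ j x) := by
  have h : act hP ((φ (n - 2)).trans (φ j)) Φ = act hP ((φ j).trans (φ (n - 2)).symm) Φ := by
    rw [act_trans, act_trans, D.img j (by omega) (by omega), D.img (n - 2) (by omega) (by omega),
      act_adj, act_adj, act_adj, act_adj, D.img j (by omega) (by omega),
      ← D.img_symm (by omega) (by omega),
      adj_comm hP (show j + 2 ≤ (n : ℤ) - 2 by omega),
      adj_comm hP (show j + 2 ≤ (n : ℤ) - 1 by omega)]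
  exact act_ext hP h x


/-! ### the relations of the linear parts and the chain of fixed spaces -/

/-- the common fixed space of `s` and of the `t j` with `k ≤ j ≤ m` -/
def VK {W : Type*} [NormedAddCommGroup W] [InnerProductSpace ℝ W] (m : ℕ)
    (t : ℕ → W →ₗᵢ[ℝ] W) (s : W →ₗᵢ[ℝ] W) (k : ℕ) : Submodule ℝ W where
  carrier := {w | s w = w ∧ ∀ j, k ≤ j → j ≤ m → t j w = w}
  add_mem' := by
    rintro a b ⟨h1, h2⟩ ⟨h3, h4⟩
    refine ⟨by rw [map_add, h1, h3], fun j hj hm => by rw [map_add, h2 j hj hm, h4 j hj hm]⟩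
  zero_mem' := ⟨map_zero _, fun j _ _ => map_zero _⟩
  smul_mem' := by
    rintro c a ⟨h1, h2⟩
    refine ⟨by rw [map_smul, h1], fun j hj hm => by rw [map_smul, h2 j hj hm]⟩

theorem mem_VK {W : Type*} [NormedAddCommGroup W] [InnerProductSpace ℝ W] {m : ℕ}
    {t : ℕ → W →ₗᵢ[ℝ] W} {s : W →ₗᵢ[ℝ] W} {k : ℕ} {w : W} :
    w ∈ VK m t s k ↔ s w = w ∧ ∀ j, k ≤ j → j ≤ m → t j w = w := Iff.rfl

/-- the linear parts -/
noncomputable def tt (D : Dist hP β Φ φ g) (hx0 : rk (Φ.f 0) = 0) (j : ℕ) :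
    VW rk β (β (Φ.f 0)) →ₗᵢ[ℝ] VW rk β (β (Φ.f 0)) := LW hP hx0 (D.sym j)

noncomputable def ss (D : Dist hP β Φ φ g) (hx0 : rk (Φ.f 0) = 0) :
    VW rk β (β (Φ.f 0)) →ₗᵢ[ℝ] VW rk β (β (Φ.f 0)) := LW hP hx0 (D.sym (n - 2))

noncomputable def ss' (D : Dist hP β Φ φ g) (hx0 : rk (Φ.f 0) = 0) :
    VW rk β (β (Φ.f 0)) →ₗᵢ[ℝ] VW rk β (β (Φ.f 0)) :=
  LW hP hx0 (isSymmetry_symm hP (D.sym (n - 2)))

theorem LW_id (hP : IsPolytope n F rk) {x0 : F} (hx0 : rk x0 = 0)
    (w : VW rk β (β x0)) :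
    LW hP hx0 (isSymmetry_refl (rk := rk) (β := β)) w = w := by
  apply Subtype.ext
  rw [LW_coe]
  have : ∀ p : EuclideanSpace ℝ (Fin d), lin (IsometryEquiv.refl _) p = p := by
    intro p
    have h := lin_sub (IsometryEquiv.refl (EuclideanSpace ℝ (Fin d))) p 0
    rw [sub_zero] at h
    rw [h]
    change p - 0 = p
    rw [sub_zero]
  exact this _

theorem Dist.rels (D : Dist hP β Φ φ g) (hx0 : rk (Φ.f 0) = 0) {m : ℕ} (hm : n = m + 3) :
    Rels m (tt D hx0) (ss D hx0) (ss' D hx0) where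
  ss' := by
    intro x
    have h := LW_rel hP hx0 (D.sym (n - 2)) (isSymmetry_symm hP (D.sym (n - 2)))
      (isSymmetry_refl (rk := rk) (β := β)) (isSymmetry_refl (rk := rk) (β := β))
      (fun x => OrderIso.apply_symm_apply _ _) x
    rw [LW_id, LW_id] at h
    exact h
  s's := by
    intro x
    have h := LW_rel hP hx0 (isSymmetry_symm hP (D.sym (n - 2))) (D.sym (n - 2))
      (isSymmetry_refl (rk := rk) (β := β)) (isSymmetry_refl (rk := rk) (β := β))
      (fun x => OrderIso.symm_apply_apply _ _) x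
    rw [LW_id, LW_id] at h
    exact h
  inv := by
    intro j hj x
    have h := LW_rel hP hx0 (D.sym j) (D.sym j)
      (isSymmetry_refl (rk := rk) (β := β)) (isSymmetry_refl (rk := rk) (β := β))
      (fun x => D.inv (by omega) (by omega) x) x
    rw [LW_id, LW_id] at h
    exact h
  comm := by
    intro i j hi hj hij x
    exact LW_rel hP hx0 (D.sym i) (D.sym j) (D.sym j) (D.sym i)
      (fun x => D.comm (by omega) (by omega) (by omega) x) x
  dih := by
    intro j hj x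
    exact LW_rel hP hx0 (D.sym j) (D.sym (n - 2)) (isSymmetry_symm hP (D.sym (n - 2))) (D.sym j)
      (fun x => D.dih (by omega) (by omega) x) x

/-- a symmetry which fixes the faces of rank at most `k` of the base flag fixes the vectors of the
vertices of the face of rank `k` -/
theorem lin_fix (hP : IsPolytope n F rk) (hx0 : rk (Φ.f 0) = 0) {h : EuclideanSpace ℝ (Fin d) ≃ᵢ EuclideanSpace ℝ (Fin d)}
    {ψ : F ≃o F} (hs : IsSymmetry rk β h ψ) {k : ℤ} (hk0 : 0 ≤ k) (hk : k ≤ n)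
    (hfix : ∀ i, i ≤ k → ψ (Φ.f i) = Φ.f i) {x : F} (hx : x ≤ Φ.f k) (hrx : rk x = 0) :
    lin h (β x - β (Φ.f 0)) = β x - β (Φ.f 0) := by
  rw [lin_sub, hs x hrx, hs _ hx0, fix_below hP Φ hk0 hk hfix hx, hfix 0 hk0]

theorem Dist.chain (D : Dist hP β Φ φ g) (hβ : IsRealization rk β) (hx0 : rk (Φ.f 0) = 0) {m : ℕ}
    (hm : n = m + 3) {k : ℕ} (hk1 : 1 ≤ k) (hk : k ≤ m) :
    VK m (tt D hx0) (ss D hx0) k < VK m (tt D hx0) (ss D hx0) (k + 1) := by
  have hle : VK m (tt D hx0) (ss D hx0) k ≤ VK m (tt D hx0) (ss D hx0) (k + 1) := by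
    rintro w ⟨h1, h2⟩
    exact ⟨h1, fun j hj hjm => h2 j (by omega) hjm⟩
  refine lt_of_le_of_ne hle ?_
  intro heq
  -- the vertices of the face of rank k
  have hmem : ∀ x : F, x ≤ Φ.f k → ∀ hrx : rk x = 0,
      (⟨β x - β (Φ.f 0), sub_mem_VW _ hrx⟩ : VW rk β (β (Φ.f 0))) ∈
        VK m (tt D hx0) (ss D hx0) (k + 1) := by
    intro x hx hrx
    refine ⟨?_, fun j hj hjm => ?_⟩
    · apply Subtype.ext
      exact lin_fix hP hx0 (D.sym (n - 2)) (k := k) (by omega) (by omega)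
        (fun i hi => D.face (by omega) (by omega) (by omega) (by omega)) hx hrx
    · apply Subtype.ext
      exact lin_fix hP hx0 (D.sym j) (k := k) (by omega) (by omega)
        (fun i hi => D.face (by omega) (by omega) (by omega) (by omega)) hx hrx
  have hfixk : ∀ x : F, x ≤ Φ.f k → rk x = 0 → φ k x = x := by
    intro x hx hrx
    have h1 := hmem x hx hrx
    rw [← heq] at h1
    have h2 := congrArg Subtype.val (h1.2 k le_rfl hk)
    change lin (g k) (β x - β (Φ.f 0)) = β x - β (Φ.f 0) at h2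
    rw [lin_sub, D.sym k x hrx, D.sym k _ hx0,
      D.face (show (0 : ℤ) ≤ k by omega) (by omega) (by omega) (by omega)] at h2
    have h3 : β (φ k x) = β x := by
      have := congrArg (fun z => z + β (Φ.f 0)) h2
      simpa using this
    exact hβ.inj _ _ (by rw [rk_auto hP, hrx]) hrx h3
  have hmove := D.move (i := k) (by omega) (by omega) (by omega)
  apply hmove
  apply hβ.faithful
  apply Set.Subset.antisymm
  · rintro _ ⟨y, ⟨hry, hy⟩, rfl⟩
    have hz : (φ k).symm y ≤ Φ.f k := by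
      rw [OrderIso.symm_apply_le]
      exact hy
    have hrz : rk ((φ k).symm y) = 0 := by rw [rk_auto hP, hry]
    have h1 := hfixk _ hz hrz
    rw [OrderIso.apply_symm_apply] at h1
    exact ⟨y, ⟨hry, by rw [h1]; exact hz⟩, rfl⟩
  · rintro _ ⟨y, ⟨hry, hy⟩, rfl⟩
    refine ⟨y, ⟨hry, ?_⟩, rfl⟩
    have h1 := hfixk _ hy hry
    rw [← h1]
    exact (φ k).monotone hy

end ChiralNF
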