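import Pool.Agent.Lib.MP_bc704c_co.Comb

/-!
# MP_bc704c_co: an isometry which behaves like the missing reflection is a symmetry
-/

set_option linter.unusedSectionVars false
set_option linter.unusedVariables false

namespace ChiralNF

universe u

variable {n : ℕ} {F : Type u} [PartialOrder F] [BoundedOrder F] {rk : F → ℤ}
  (hP : IsPolytope n F rk) {d : ℕ} {β : F → EuclideanSpace ℝ (Fin d)}

/-- simultaneous walks from `Phi` and from its `(n-1)`-adjacent flag -/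
inductive RR (Φ : SF n F rk) : SF n F rk → SF n F rk → Prop
  | base : RR Φ Φ (adj hP (n - 1) Φ)
  | step {A A' : SF n F rk} (i : ℤ) (h0 : 0 ≤ i) (hn : i < n) (h : RR Φ A A') :
      RR Φ (adj hP i A) (adj hP i A')

variable {hP}

theorem RR.symm (hn : 1 ≤ n) {Φ A A' : SF n F rk} (h : RR hP Φ A A') : RR hP Φ A' A := by
  induction h with
  | base =>
    have h1 := RR.step (hP := hP) ((n : ℤ) - 1) (by omega) (by omega) (RR.base (hP := hP) (Φ := Φ))
    rwa [adj_adj] at h1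
  | step i h0 hn h ih => exact RR.step i h0 hn ih

theorem RR.total (Φ A : SF n F rk) : ∃ A', RR hP Φ A A' := by
  induction conn0 hP Φ A with
  | refl => exact ⟨_, RR.base⟩
  | tail _ hstep ih =>
    obtain ⟨i, h0, hn, rfl⟩ := hstep
    obtain ⟨A', hA'⟩ := ih
    exact ⟨_, RR.step i h0 hn hA'⟩

variable (hP)

/-- walking with small ranks -/
theorem RR.walk {Φ A A' B : SF n F rk} (h : RR hP Φ A A') {k : ℤ} (hAB : ∀ j, k ≤ j → A.f j = B.f j) :
    ∃ B', RR hP Φ B B' ∧ ∀ j, k ≤ j → B'.f j = A'.f j := by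
  have key : ∀ C, Relation.ReflTransGen
    (fun C D : SF n F rk => ∃ i : ℤ, 0 ≤ i ∧ i < n ∧ A.f i ≠ B.f i ∧ D = adj hP i C) A C →
      ∃ C', RR hP Φ C C' ∧ ∀ j, k ≤ j → C'.f j = A'.f j := by
    intro C hC
    induction hC with
    | refl => exact ⟨A', h, fun _ _ => rfl⟩
    | tail _ hstep ih =>
      obtain ⟨i, h0, hn, hne, rfl⟩ := hstep
      obtain ⟨C', hC', hC''⟩ := ih
      refine ⟨_, RR.step i h0 hn hC', ?_⟩
      intro j hj
      have hji : j ≠ i := by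
        rintro rfl
        exact hne (hAB j hj)
      rw [adj_eq hP C' hji, hC'' j hj]
  exact key B (conn hP A B)

include hP in
/-- a flag through a vertex of a face -/
theorem exists_through (A : SF n F rk) {x : F} (hx : rk x = 0) {k : ℤ} (hk : 0 ≤ k)
    (hxk : x ≤ A.f k) : ∃ B : SF n F rk, B.f 0 = x ∧ ∀ j, k ≤ j → A.f j = B.f j := by
  have hch : IsChain (· ≤ ·) ({x} ∪ {y | ∃ j, k ≤ j ∧ A.f j = y}) := by
    rintro a (rfl | ⟨i, hi, rfl⟩) b (rfl | ⟨j, hj, rfl⟩) _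
    · exact Or.inl le_rfl
    · exact Or.inl (hxk.trans (A.mono hj))
    · exact Or.inr (hxk.trans (A.mono hi))
    · exact A.comp i j
  obtain ⟨B, hB⟩ := hP.exists_chain hch
  refine ⟨B, ?_, ?_⟩
  · have := hB x (Or.inl rfl)
    rwa [hx] at this
  · intro j hj
    by_cases hjn : (n : ℤ) ≤ j
    · rw [A.hi j hjn, B.hi j hjn]
    · have := hB (A.f j) (Or.inr ⟨j, hj, rfl⟩)
      rw [A.rank j (by omega) (by omega)] at this
      exact this.symm

theorem mirror (hβ : IsRealization rk β) (hn : 2 ≤ n) (Φ : SF n F rk)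
    (φ φ' : ℤ → (F ≃o F)) (g g' : ℤ → (EuclideanSpace ℝ (Fin d) ≃ᵢ EuclideanSpace ℝ (Fin d)))
    (hg : ∀ i : ℤ, 0 ≤ i → i < n → IsSymmetry rk β (g i) (φ i))
    (hg' : ∀ i : ℤ, 0 ≤ i → i < n → IsSymmetry rk β (g' i) (φ' i))
    (h1 : ∀ i : ℤ, 0 ≤ i → i < n → adj hP i Φ = act hP (φ i) (adj hP (n - 1) Φ))
    (h2 : ∀ i : ℤ, 0 ≤ i → i < n → adj hP i (adj hP (n - 1) Φ) = act hP (φ' i) Φ)
    (S : EuclideanSpace ℝ (Fin d) ≃ᵢ EuclideanSpace ℝ (Fin d))
    (hS0 : S (β (Φ.f 0)) = β (Φ.f 0))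
    (hS1 : ∀ i : ℤ, 0 ≤ i → i < n → ∀ x, rk x = 0 → S (g i (β x)) = g' i (S (β x)))
    (hS2 : ∀ i : ℤ, 0 ≤ i → i < n → ∀ x, rk x = 0 → S (g' i (β x)) = g i (S (β x))) :
    SO hP β Φ (adj hP (n - 1) Φ) := by
  have hΦ0 : (adj hP (n - 1) Φ).f 0 = Φ.f 0 := adj_eq hP Φ (by omega)
  have hrk0 : rk (Φ.f 0) = 0 := Φ.rank 0 (by omega) (by omega)
  -- the group elements along a walk
  have word : ∀ A A' : SF n F rk, RR hP Φ A A' →
      ∃ (G G' : EuclideanSpace ℝ (Fin d) ≃ᵢ EuclideanSpace ℝ (Fin d)) (ψ ψ' : F ≃o F),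
        IsSymmetry rk β G ψ ∧ IsSymmetry rk β G' ψ' ∧
        (∀ x, rk x = 0 → S (G (β x)) = G' (S (β x))) ∧
        ((A = act hP ψ Φ ∧ A' = act hP ψ' (adj hP (n - 1) Φ)) ∨
          (A = act hP ψ (adj hP (n - 1) Φ) ∧ A' = act hP ψ' Φ)) := by
    intro A A' h
    induction h with
    | base =>
      exact ⟨IsometryEquiv.refl _, IsometryEquiv.refl _, OrderIso.refl F, OrderIso.refl F,
        isSymmetry_refl, isSymmetry_refl, fun x _ => rfl, Or.inl ⟨rfl, rfl⟩⟩
    | step i h0 hin h ih =>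
      obtain ⟨G, G', ψ, ψ', hG, hG', hc, hor⟩ := ih
      rcases hor with ⟨e1, e2⟩ | ⟨e1, e2⟩
      · refine ⟨(g i).trans G, (g' i).trans G', (φ i).trans ψ, (φ' i).trans ψ',
          isSymmetry_trans hP (hg i h0 hin) hG, isSymmetry_trans hP (hg' i h0 hin) hG', ?_,
          Or.inr ⟨?_, ?_⟩⟩
        · intro x hx
          change S (G (g i (β x))) = G' (g' i (S (β x)))
          rw [hg i h0 hin x hx, hc _ (by rw [rk_auto hP, hx]), ← hg i h0 hin x hx,
            hS1 i h0 hin x hx]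
        · rw [e1, ← act_adj, h1 i h0 hin]; rfl
        · rw [e2, ← act_adj, h2 i h0 hin]; rfl
      · refine ⟨(g' i).trans G, (g i).trans G', (φ' i).trans ψ, (φ i).trans ψ',
          isSymmetry_trans hP (hg' i h0 hin) hG, isSymmetry_trans hP (hg i h0 hin) hG', ?_,
          Or.inl ⟨?_, ?_⟩⟩
        · intro x hx
          change S (G (g' i (β x))) = G' (g i (S (β x)))
          rw [hg' i h0 hin x hx, hc _ (by rw [rk_auto hP, hx]), ← hg' i h0 hin x hx,
            hS2 i h0 hin x hx]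
        · rw [e1, ← act_adj, h2 i h0 hin]; rfl
        · rw [e2, ← act_adj, h1 i h0 hin]; rfl
  have vert : ∀ A A' : SF n F rk, RR hP Φ A A' → S (β (A.f 0)) = β (A'.f 0) := by
    intro A A' h
    obtain ⟨G, G', ψ, ψ', hG, hG', hc, hor⟩ := word A A' h
    rcases hor with ⟨e1, e2⟩ | ⟨e1, e2⟩
    · rw [e1, e2, act_f, act_f, hΦ0, ← hG _ hrk0, hc _ hrk0, hS0, hG' _ hrk0]
    · rw [e1, e2, act_f, act_f, hΦ0, ← hG _ hrk0, hc _ hrk0, hS0, hG' _ hrk0]
  have face1 : ∀ A A' : SF n F rk, RR hP Φ A A' → ∀ k, 0 ≤ k → ∀ x, rk x = 0 → x ≤ A.f k →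
      ∃ y z : SF n F rk, RR hP Φ y z ∧ y.f 0 = x ∧ z.f 0 ≤ A'.f k := by
    intro A A' h k hk x hx hxk
    obtain ⟨B, hB0, hB⟩ := exists_through hP A hx hk hxk
    obtain ⟨B', hB', hB''⟩ := RR.walk hP h hB
    refine ⟨B, B', hB', hB0, ?_⟩
    rw [← hB'' k le_rfl]
    exact B'.mono hk
  have face : ∀ A A' : SF n F rk, RR hP Φ A A' → ∀ k, 0 ≤ k →
      S '' (vset rk β (A.f k)) = vset rk β (A'.f k) := by
    intro A A' h k hk
    ext p
    constructor
    · rintro ⟨_, ⟨x, ⟨hx, hxk⟩, rfl⟩, rfl⟩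
      obtain ⟨y, z, hyz, hy, hz⟩ := face1 A A' h k hk x hx hxk
      rw [← hy, vert y z hyz]
      exact ⟨z.f 0, ⟨z.rank 0 (by omega) (by omega), hz⟩, rfl⟩
    · rintro ⟨x, ⟨hx, hxk⟩, rfl⟩
      obtain ⟨y, z, hyz, hy, hz⟩ := face1 A' A (h.symm (by omega)) k hk x hx hxk
      refine ⟨β (z.f 0), ⟨z.f 0, ⟨z.rank 0 (by omega) (by omega), hz⟩, rfl⟩, ?_⟩
      rw [vert z y (hyz.symm (by omega)), hy]
  -- the induced map
  have exA : ∀ a : F, ∃ A A' : SF n F rk, RR hP Φ A A' ∧ A.f (rk a) = a := by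
    intro a
    obtain ⟨A, hA⟩ := hP.exists_chain (C := {a}) Set.subsingleton_singleton.isChain
    obtain ⟨A', hA'⟩ := RR.total (hP := hP) Φ A
    exact ⟨A, A', hA', hA a rfl⟩
  choose A A' hAA' hAa using exA
  let ψ : F → F := fun a => (A' a).f (rk a)
  have hψrk : ∀ a, rk (ψ a) = rk a := fun a => by
    have := hP.rk_range a
    exact (A' a).rank _ this.1 this.2
  have huniq : ∀ (a : F) (B B' : SF n F rk), RR hP Φ B B' → B.f (rk a) = a →
      ψ a = B'.f (rk a) := by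
    intro a B B' h hB
    have hr := hP.rk_range a
    by_cases ha : rk a = -1
    · change (A' a).f (rk a) = B'.f (rk a)
      rw [ha, (A' a).lo _ le_rfl, B'.lo _ le_rfl]
    · apply hβ.faithful
      change vset rk β ((A' a).f (rk a)) = _
      rw [← face _ _ (hAA' a) (rk a) (by omega), ← face _ _ h (rk a) (by omega), hAa, hB]
  have hinv : ∀ a, ψ (ψ a) = a := by
    intro a
    rw [huniq (ψ a) (A' a) (A a) ((hAA' a).symm (by omega)) (by rw [hψrk]), hψrk, hAa]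
  have hmono : ∀ a b, a ≤ b → ψ a ≤ ψ b := by
    intro a b hab
    obtain ⟨B, hB⟩ := hP.exists_chain (C := {a, b}) (IsChain.pair hab)
    obtain ⟨B', hB'⟩ := RR.total (hP := hP) Φ B
    rw [huniq a B B' hB' (hB a (by simp)), huniq b B B' hB' (hB b (by simp))]
    exact B'.mono (hP.rk_mono.monotone hab)
  let Ψ : F ≃o F :=
    { toFun := ψ, invFun := ψ, left_inv := hinv, right_inv := hinv,
      map_rel_iff' := by
        intro a b
        constructor
        · intro h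
          have := hmono _ _ h
          change ψ (ψ a) ≤ ψ (ψ b) at this
          rwa [hinv, hinv] at this
        · intro h
          exact hmono a b h }
  refine ⟨S, Ψ, ?_, ?_⟩
  · intro x hx
    change S (β x) = β (ψ x)
    have h3 := vert _ _ (hAA' x)
    have h4 := hAa x
    rw [hx] at h4
    rw [h4] at h3
    rw [h3]
    change _ = β ((A' x).f (rk x))
    rw [hx]
  · apply SF.ext'
    intro i h0 hin
    change ψ (Φ.f i) = _
    have hr := Φ.rank i (by omega) (by omega)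
    rw [huniq (Φ.f i) Φ _ RR.base (by rw [hr]), hr]

end ChiralNF
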