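import Pool.Agent.Lib.MP_bc704c_co.Core
import Pool.Agent.Lib.MP_bc704c_co.Mirror

set_option linter.unusedSectionVars false
set_option linter.unusedVariables false

namespace ChiralNF

open Module

universe u

variable {n : ℕ} {F : Type u} [PartialOrder F] [BoundedOrder F] {rk : F → ℤ}
variable {d : ℕ} {β : F → EuclideanSpace ℝ (Fin d)}

/-- linear part of an isometry -/
noncomputable def lin (g : EuclideanSpace ℝ (Fin d) ≃ᵢ EuclideanSpace ℝ (Fin d)) :
    EuclideanSpace ℝ (Fin d) ≃ₗᵢ[ℝ] EuclideanSpace ℝ (Fin d) :=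
  g.toRealAffineIsometryEquiv.linearIsometryEquiv

theorem lin_sub (g : EuclideanSpace ℝ (Fin d) ≃ᵢ EuclideanSpace ℝ (Fin d))
    (p q : EuclideanSpace ℝ (Fin d)) : lin g (p - q) = g p - g q := by
  exact g.toRealAffineIsometryEquiv.map_vsub p q

/-- the span of the differences of vertices -/
def VW (rk : F → ℤ) (β : F → EuclideanSpace ℝ (Fin d)) (v : EuclideanSpace ℝ (Fin d)) :
    Submodule ℝ (EuclideanSpace ℝ (Fin d)) :=
  Submodule.span ℝ {w | ∃ x, rk x = 0 ∧ w = β x - v}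

theorem sub_mem_VW (v : EuclideanSpace ℝ (Fin d)) {x : F} (hx : rk x = 0) :
    β x - v ∈ VW rk β v := Submodule.subset_span ⟨x, hx, rfl⟩

theorem lin_mem (hP : IsPolytope n F rk) {x0 : F} (hx0 : rk x0 = 0)
    {g : EuclideanSpace ℝ (Fin d) ≃ᵢ EuclideanSpace ℝ (Fin d)} {φ : F ≃o F}
    (hg : IsSymmetry rk β g φ) {w : EuclideanSpace ℝ (Fin d)} (hw : w ∈ VW rk β (β x0)) :
    lin g w ∈ VW rk β (β x0) := by
  induction hw using Submodule.span_induction with
  | mem w h =>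
    obtain ⟨x, hx, rfl⟩ := h
    rw [lin_sub, hg x hx, hg x0 hx0]
    have h1 : β (φ x) - β (φ x0) = (β (φ x) - β x0) - (β (φ x0) - β x0) := by abel
    rw [h1]
    exact Submodule.sub_mem _ (sub_mem_VW _ (by rw [rk_auto hP, hx]))
      (sub_mem_VW _ (by rw [rk_auto hP, hx0]))
  | zero => rw [map_zero]; exact Submodule.zero_mem _
  | add x y _ _ hx hy => rw [map_add]; exact Submodule.add_mem _ hx hy
  | smul a x _ hx => rw [map_smul]; exact Submodule.smul_mem _ _ hx

/-- the linear part, restricted to the span of the vertices -/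
noncomputable def LW (hP : IsPolytope n F rk) {x0 : F} (hx0 : rk x0 = 0)
    {g : EuclideanSpace ℝ (Fin d) ≃ᵢ EuclideanSpace ℝ (Fin d)} {φ : F ≃o F}
    (hg : IsSymmetry rk β g φ) : VW rk β (β x0) →ₗᵢ[ℝ] VW rk β (β x0) where
  toLinearMap := (lin g).toLinearEquiv.toLinearMap.restrict (fun _ hw => lin_mem hP hx0 hg hw)
  norm_map' := fun w => (lin g).norm_map w

theorem LW_coe (hP : IsPolytope n F rk) {x0 : F} (hx0 : rk x0 = 0)
    {g : EuclideanSpace ℝ (Fin d) ≃ᵢ EuclideanSpace ℝ (Fin d)} {φ : F ≃o F}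
    (hg : IsSymmetry rk β g φ) (w : VW rk β (β x0)) :
    ((LW hP hx0 hg w : VW rk β (β x0)) : EuclideanSpace ℝ (Fin d)) = lin g w := rfl

theorem lin_rel (hP : IsPolytope n F rk) {x0 : F} (hx0 : rk x0 = 0)
    {g1 g2 g3 g4 : EuclideanSpace ℝ (Fin d) ≃ᵢ EuclideanSpace ℝ (Fin d)}
    {φ1 φ2 φ3 φ4 : F ≃o F} (h1 : IsSymmetry rk β g1 φ1) (h2 : IsSymmetry rk β g2 φ2)
    (h3 : IsSymmetry rk β g3 φ3) (h4 : IsSymmetry rk β g4 φ4)
    (h : ∀ x, φ1 (φ2 x) = φ3 (φ4 x)) {w : EuclideanSpace ℝ (Fin d)} (hw : w ∈ VW rk β (β x0)) :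
    lin g1 (lin g2 w) = lin g3 (lin g4 w) := by
  induction hw using Submodule.span_induction with
  | mem w h =>
    obtain ⟨x, hx, rfl⟩ := h
    rw [lin_sub, lin_sub, lin_sub, lin_sub, h2 x hx, h2 x0 hx0, h4 x hx, h4 x0 hx0,
      h1 _ (by rw [rk_auto hP, hx]), h1 _ (by rw [rk_auto hP, hx0]),
      h3 _ (by rw [rk_auto hP, hx]), h3 _ (by rw [rk_auto hP, hx0]), h, h]
  | zero => simp
  | add x y _ _ hx hy => simp only [map_add, hx, hy]
  | smul a x _ hx => simp only [map_smul, hx]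

theorem LW_rel (hP : IsPolytope n F rk) {x0 : F} (hx0 : rk x0 = 0)
    {g1 g2 g3 g4 : EuclideanSpace ℝ (Fin d) ≃ᵢ EuclideanSpace ℝ (Fin d)}
    {φ1 φ2 φ3 φ4 : F ≃o F} (h1 : IsSymmetry rk β g1 φ1) (h2 : IsSymmetry rk β g2 φ2)
    (h3 : IsSymmetry rk β g3 φ3) (h4 : IsSymmetry rk β g4 φ4)
    (h : ∀ x, φ1 (φ2 x) = φ3 (φ4 x)) (w : VW rk β (β x0)) :
    LW hP hx0 h1 (LW hP hx0 h2 w) = LW hP hx0 h3 (LW hP hx0 h4 w) := by
  apply Subtype.ext
  rw [LW_coe, LW_coe, LW_coe, LW_coe]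
  exact lin_rel hP hx0 h1 h2 h3 h4 h w.2


/-! ### faces below a fixed face -/

theorem adj_local (hP : IsPolytope n F rk) (A : SF n F rk) {i : ℤ} (h0 : 0 ≤ i) (hn : i < n)
    {c : F} (h1 : A.f (i - 1) < c) (h2 : c < A.f (i + 1)) (h3 : c ≠ A.f i) :
    c = (adj hP i A).f i := by
  have h4 : adj hP i A = (hP.exists_adj A h0 hn).choose := dif_pos ⟨h0, hn⟩
  rw [h4]
  exact (hP.exists_adj A h0 hn).choose_spec.2.2 c h1 h2 h3

theorem SF.lt (A : SF n F rk) {i j : ℤ} (hi : -1 ≤ i) (hij : i < j) (hj : j ≤ n) :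
    A.f i < A.f j := by
  apply lt_of_le_of_ne (A.mono hij.le)
  intro h
  have := congrArg rk h
  rw [A.rank _ (by omega) (by omega), A.rank _ (by omega) (by omega)] at this
  omega

/-- an automorphism which fixes the faces of rank at most `k` of a flag fixes everything below the
face of rank `k` -/
theorem fix_below (hP : IsPolytope n F rk) (Φ : SF n F rk) {φ : F ≃o F} {k : ℤ} (hk0 : 0 ≤ k)
    (hk : k ≤ n) (hfix : ∀ i, i ≤ k → φ (Φ.f i) = Φ.f i) {x : F} (hx : x ≤ Φ.f k) : φ x = x := by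
  classical
  -- a flag through x which agrees with the base flag from rank k on
  have hch : IsChain (· ≤ ·) ({x} ∪ {y | ∃ i, k ≤ i ∧ y = Φ.f i}) := by
    rintro a ha b hb _
    rcases ha with ha | ⟨i, hi, rfl⟩
    · rw [Set.mem_singleton_iff] at ha
      subst ha
      rcases hb with hb | ⟨j, hj, rfl⟩
      · rw [Set.mem_singleton_iff] at hb
        subst hb
        exact Or.inl le_rfl
      · exact Or.inl (hx.trans (Φ.mono hj))
    · rcases hb with hb | ⟨j, hj, rfl⟩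
      · rw [Set.mem_singleton_iff] at hb
        subst hb
        exact Or.inr (hx.trans (Φ.mono hi))
      · exact Φ.comp i j
  obtain ⟨A, hA⟩ := hP.exists_chain hch
  have hAx : A.f (rk x) = x := hA x (Or.inl rfl)
  have hAk : ∀ i, k ≤ i → A.f i = Φ.f i := by
    intro i hi
    by_cases h1 : i ≤ -1
    · rw [A.lo i h1, Φ.lo i h1]
    by_cases h2 : (n : ℤ) ≤ i
    · rw [A.hi i h2, Φ.hi i h2]
    have h3 := hA (Φ.f i) (Or.inr ⟨i, hi, rfl⟩)
    rwa [Φ.rank i (by omega) (by omega)] at h3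
  have key : ∀ C, Relation.ReflTransGen
    (fun C D : SF n F rk => ∃ i : ℤ, 0 ≤ i ∧ i < n ∧ Φ.f i ≠ A.f i ∧ D = adj hP i C) Φ C →
      ∀ i, i ≤ k → φ (C.f i) = C.f i := by
    intro C hC
    induction hC with
    | refl => exact hfix
    | tail _ hstep ih =>
      rename_i C D _
      obtain ⟨i, h0, hn, hne, rfl⟩ := hstep
      have hik : i < k := by
        by_contra h
        exact hne (hAk i (by omega)).symm
      intro j hj
      by_cases hji : j = i
      · subst hji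
        apply adj_local hP C h0 hn
        · rw [← ih (j - 1) (by omega), φ.lt_iff_lt, ← adj_eq hP C (show j - 1 ≠ j by omega)]
          exact SF.lt _ (by omega) (by omega) (by omega)
        · rw [← ih (j + 1) (by omega), φ.lt_iff_lt, ← adj_eq hP C (show j + 1 ≠ j by omega)]
          exact SF.lt _ (by omega) (by omega) (by omega)
        · rw [← ih j hj]
          intro h
          rw [ih j hj] at h
          exact adj_ne hP h0 hn C (φ.injective (h.trans (ih j hj).symm))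
      · rw [adj_eq hP C hji]
        exact ih j hj
  have h1 := key A (conn hP Φ A)
  have h2 : rk x ≤ k := by
    have := hP.rk_mono.monotone hx
    rwa [Φ.rank k (by omega) hk] at this
  rw [← hAx]
  exact h1 _ h2

end ChiralNF
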