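import Pool.Agent.Lib.MP_bc704c_co.Dist

set_option linter.unusedSectionVars false
set_option linter.unusedVariables false

namespace ChiralNF

open Module

universe u

variable {n : ℕ} {F : Type u} [PartialOrder F] [BoundedOrder F] {rk : F → ℤ}
variable {d : ℕ} {β : F → EuclideanSpace ℝ (Fin d)}
variable {hP : IsPolytope n F rk} {Φ : SF n F rk} {φ : ℤ → F ≃o F}
  {g : ℤ → EuclideanSpace ℝ (Fin d) ≃ᵢ EuclideanSpace ℝ (Fin d)}

theorem Dist.chain_finrank (D : Dist hP β Φ φ g) (hβ : IsRealization rk β)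
    (hx0 : rk (Φ.f 0) = 0) {m : ℕ} (hm : n = m + 3) : ∀ k : ℕ, k ≤ m →
    finrank ℝ (VK m (tt D hx0) (ss D hx0) 1) + k ≤ finrank ℝ (VK m (tt D hx0) (ss D hx0) (k + 1)) := by
  intro k
  induction k with
  | zero => intro _; exact le_rfl
  | succ k ih =>
    intro hk
    have h1 := ih (by omega)
    have h2 := Submodule.finrank_lt_finrank_of_lt
      (D.chain hβ hx0 hm (k := k + 1) (by omega) (by omega))
    omega

theorem sum_perm [Fintype F] (hP : IsPolytope n F rk) (ψ : F ≃o F)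
    (f : F → EuclideanSpace ℝ (Fin d)) :
    ∑ x ∈ Finset.univ.filter (fun x : F => rk x = 0), f (ψ x) =
      ∑ x ∈ Finset.univ.filter (fun x : F => rk x = 0), f x := by
  apply Finset.sum_equiv ψ.toEquiv
  · intro i
    simp only [Finset.mem_filter, Finset.mem_univ, true_and]
    change rk i = 0 ↔ rk (ψ i) = 0
    rw [rk_auto hP]
  · intro i _
    rfl

/-- in the finite case the centroid gives a nonzero common fixed vector -/
theorem Dist.centroid [Finite F] (D : Dist hP β Φ φ g) (hβ : IsRealization rk β)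
    (hx0 : rk (Φ.f 0) = 0) {m : ℕ} (hm : n = m + 3) :
    1 ≤ finrank ℝ (VK m (tt D hx0) (ss D hx0) 1) := by
  classical
  have : Fintype F := Fintype.ofFinite F
  set v := β (Φ.f 0) with hv
  let V := Finset.univ.filter (fun x : F => rk x = 0)
  let w0 : EuclideanSpace ℝ (Fin d) := ∑ x ∈ V, (β x - v)
  have hmemV : ∀ x ∈ V, rk x = 0 := fun x hx => (Finset.mem_filter.1 hx).2
  have hw0 : w0 ∈ VW rk β v := Submodule.sum_mem _ (fun x hx => sub_mem_VW _ (hmemV x hx))
  have hlin : ∀ (h : EuclideanSpace ℝ (Fin d) ≃ᵢ EuclideanSpace ℝ (Fin d)) (ψ : F ≃o F),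
      IsSymmetry rk β h ψ → lin h w0 = ∑ x ∈ V, (β x - β (ψ (Φ.f 0))) := by
    intro h ψ hs
    rw [map_sum]
    rw [← sum_perm hP ψ (fun y => β y - β (ψ (Φ.f 0)))]
    apply Finset.sum_congr rfl
    intro x hx
    rw [lin_sub, hs x (hmemV x hx), hs _ hx0]
  have hfix : ∀ (h : EuclideanSpace ℝ (Fin d) ≃ᵢ EuclideanSpace ℝ (Fin d)) (ψ : F ≃o F),
      IsSymmetry rk β h ψ → ψ (Φ.f 0) = Φ.f 0 → lin h w0 = w0 := by
    intro h ψ hs h0
    rw [hlin h ψ hs, h0]
  have hne : w0 ≠ 0 := by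
    intro h0
    have h1 := hlin (g 0) (φ 0) (D.sym 0)
    rw [h0, map_zero] at h1
    have h2 : ∑ x ∈ V, (β x - β (φ 0 (Φ.f 0))) = w0 + V.card • (v - β (φ 0 (Φ.f 0))) := by
      rw [← Finset.sum_const, ← Finset.sum_add_distrib]
      apply Finset.sum_congr rfl
      intro x _
      abel
    rw [h2, h0, zero_add] at h1
    have h3 : v - β (φ 0 (Φ.f 0)) = 0 := by
      have hc : V.card ≠ 0 := by
        rw [Finset.card_ne_zero]
        exact ⟨Φ.f 0, Finset.mem_filter.2 ⟨Finset.mem_univ _, hx0⟩⟩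
      rw [← Nat.cast_smul_eq_nsmul ℝ] at h1
      exact (smul_eq_zero.1 h1.symm).resolve_left (Nat.cast_ne_zero.2 hc)
    have h4 : β (φ 0 (Φ.f 0)) = β (Φ.f 0) := (sub_eq_zero.1 h3).symm
    exact D.move (i := 0) le_rfl (by omega) (by omega)
      (hβ.inj _ _ (by rw [rk_auto hP, hx0]) hx0 h4)
  have hmem : (⟨w0, hw0⟩ : VW rk β v) ∈ VK m (tt D hx0) (ss D hx0) 1 := by
    refine ⟨?_, fun j hj hjm => ?_⟩
    · apply Subtype.ext
      exact hfix _ _ (D.sym (n - 2)) (D.face (by omega) (by omega) (by omega) (by omega))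
    · apply Subtype.ext
      exact hfix _ _ (D.sym j) (D.face (by omega) (by omega) (by omega) (by omega))
  rw [Nat.one_le_iff_ne_zero]
  intro h
  rw [Submodule.finrank_eq_zero] at h
  rw [h, Submodule.mem_bot] at hmem
  exact hne (congrArg Subtype.val hmem)


/-- an isometry of the affine span which intertwines linear parts and translations -/
theorem intertwine (hx0 : rk (Φ.f 0) = 0)
    {h h' : EuclideanSpace ℝ (Fin d) ≃ᵢ EuclideanSpace ℝ (Fin d)}
    (SE : EuclideanSpace ℝ (Fin d) →ₗᵢ[ℝ] EuclideanSpace ℝ (Fin d))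
    (T : EuclideanSpace ℝ (Fin d) ≃ᵢ EuclideanSpace ℝ (Fin d))
    (hT : ∀ p, T p = SE (p - β (Φ.f 0)) + β (Φ.f 0))
    (hb : SE (h (β (Φ.f 0)) - β (Φ.f 0)) = h' (β (Φ.f 0)) - β (Φ.f 0))
    (hl : ∀ w ∈ VW rk β (β (Φ.f 0)), SE (lin h w) = lin h' (SE w)) :
    ∀ x, rk x = 0 → T (h (β x)) = h' (T (β x)) := by
  intro x hx
  rw [hT, hT]
  have h1 : h (β x) - β (Φ.f 0) = lin h (β x - β (Φ.f 0)) + (h (β (Φ.f 0)) - β (Φ.f 0)) := by
    rw [lin_sub]; abel
  have h2 : h' (SE (β x - β (Φ.f 0)) + β (Φ.f 0)) =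
      lin h' (SE (β x - β (Φ.f 0))) + h' (β (Φ.f 0)) := by
    have h3 := lin_sub h' (SE (β x - β (Φ.f 0)) + β (Φ.f 0)) (β (Φ.f 0))
    rw [add_sub_cancel_right] at h3
    rw [h3]; abel
  rw [h1, h2, map_add, hb, hl _ (sub_mem_VW _ hx)]
  abel

theorem lin_congr (hP : IsPolytope n F rk) {x0 : F} (hx0 : rk x0 = 0)
    {h h' : EuclideanSpace ℝ (Fin d) ≃ᵢ EuclideanSpace ℝ (Fin d)} {ψ ψ' : F ≃o F}
    (hs : IsSymmetry rk β h ψ) (hs' : IsSymmetry rk β h' ψ') (hψ : ∀ x, ψ x = ψ' x)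
    {w : EuclideanSpace ℝ (Fin d)} (hw : w ∈ VW rk β (β x0)) : lin h w = lin h' w := by
  induction hw using Submodule.span_induction with
  | mem w h =>
    obtain ⟨x, hx, rfl⟩ := h
    rw [lin_sub, lin_sub, hs x hx, hs x0 hx0, hs' x hx, hs' x0 hx0, hψ, hψ]
  | zero => simp
  | add x y _ _ hx hy => simp only [map_add, hx, hy]
  | smul a x _ hx => simp only [map_smul, hx]

theorem main (hP : IsPolytope n F rk) (hβ : IsRealization rk β) (hn : 7 ≤ n)
    (hd : (Finite F ∧ d ≤ n + 1) ∨ d ≤ n) : ¬ IsChiral rk β := by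
  intro hc
  obtain ⟨Φ, φ, g, D⟩ := exists_dist hP (by omega) hc
  obtain ⟨m, hm⟩ : ∃ m, n = m + 3 := ⟨n - 3, by omega⟩
  have hx0 : rk (Φ.f 0) = 0 := Φ.rank 0 (by omega) (by omega)
  have hW : finrank ℝ (VW rk β (β (Φ.f 0))) ≤ d := by
    have := Submodule.finrank_le (VW rk β (β (Φ.f 0)))
    simpa using this
  -- the dimension count
  have hdim : finrank ℝ (VW rk β (β (Φ.f 0))) ≤
      finrank ℝ (VK m (tt D hx0) (ss D hx0) 1) + (m + 3) := by
    rcases hd with ⟨hfin, hd⟩ | hd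
    · have := D.centroid hβ hx0 hm
      omega
    · omega
  have c0 := D.chain_finrank hβ hx0 hm m le_rfl
  have c1 := D.chain_finrank hβ hx0 hm (m - 1) (by omega)
  have c2 := D.chain_finrank hβ hx0 hm (m - 2) (by omega)
  rw [show m - 1 + 1 = m by omega] at c1
  rw [show m - 2 + 1 = m - 1 by omega] at c2
  obtain ⟨S, hSt, hSs, hSA⟩ := core (D.rels hx0 hm) (by omega)
    (VK m (tt D hx0) (ss D hx0) (m + 1)) (VK m (tt D hx0) (ss D hx0) m)
    (VK m (tt D hx0) (ss D hx0) (m - 1))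
    (fun x => ⟨fun h => h.1, fun h => ⟨h, fun j hj hjm => by omega⟩⟩)
    (fun x => ⟨fun h => ⟨h.1, h.2 m le_rfl le_rfl⟩, fun h => ⟨h.1, fun j hj hjm => by
      have : j = m := by omega
      rw [this]; exact h.2⟩⟩)
    (fun x => ⟨fun h => ⟨h.1, h.2 m (by omega) le_rfl, h.2 (m - 1) le_rfl (by omega)⟩,
      fun h => ⟨h.1, fun j hj hjm => by
        rcases (show j = m ∨ j = m - 1 by omega) with h1 | h1
        · rw [h1]; exact h.2.1
        · rw [h1]; exact h.2.2⟩⟩)
    (by omega) (by omega) (by omega)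
  -- extend to the whole space
  let SE : EuclideanSpace ℝ (Fin d) →ₗᵢ[ℝ] EuclideanSpace ℝ (Fin d) :=
    LinearIsometry.extend ((VW rk β (β (Φ.f 0))).subtypeₗᵢ.comp S)
  have hSE : ∀ (w : VW rk β (β (Φ.f 0))), SE w = (S w : EuclideanSpace ℝ (Fin d)) := by
    intro w
    exact LinearIsometry.extend_apply ((VW rk β (β (Φ.f 0))).subtypeₗᵢ.comp S) w
  let SEe : EuclideanSpace ℝ (Fin d) ≃ₗᵢ[ℝ] EuclideanSpace ℝ (Fin d) :=
    SE.toLinearIsometryEquiv rfl
  let T : EuclideanSpace ℝ (Fin d) ≃ᵢ EuclideanSpace ℝ (Fin d) :=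
    (IsometryEquiv.subRight (β (Φ.f 0))).trans
      (SEe.toIsometryEquiv.trans (IsometryEquiv.addRight (β (Φ.f 0))))
  have hT : ∀ p, T p = SE (p - β (Φ.f 0)) + β (Φ.f 0) := fun p => rfl
  -- linear parts of the generators
  have hSEW : ∀ w ∈ VW rk β (β (Φ.f 0)), SE w ∈ VW rk β (β (Φ.f 0)) := by
    intro w hw
    have h1 := hSE ⟨w, hw⟩
    change SE w = _ at h1
    rw [h1]
    exact (S ⟨w, hw⟩).2
  have lt : ∀ j : ℕ, j ≤ m → ∀ w ∈ VW rk β (β (Φ.f 0)), SE (lin (g j) w) = lin (g j) (SE w) := by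
    intro j hj w hw
    have h1 := congrArg Subtype.val (hSt j hj ⟨w, hw⟩)
    rw [← hSE] at h1
    change SE (lin (g j) w) = lin (g j) ((S ⟨w, hw⟩ : VW rk β (β (Φ.f 0))) : _) at h1
    rw [← hSE] at h1
    exact h1
  have ls : ∀ w ∈ VW rk β (β (Φ.f 0)),
      SE (lin (g (n - 2)) w) = lin (g (n - 2)).symm (SE w) := by
    intro w hw
    have h1 := congrArg Subtype.val (hSs ⟨w, hw⟩)
    rw [← hSE] at h1
    change SE (lin (g (n - 2)) w) =
      lin (g (n - 2)).symm ((S ⟨w, hw⟩ : VW rk β (β (Φ.f 0))) : _) at h1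
    rw [← hSE] at h1
    exact h1
  have ls' : ∀ w ∈ VW rk β (β (Φ.f 0)),
      SE (lin (g (n - 2)).symm w) = lin (g (n - 2)) (SE w) := by
    intro w hw
    have h0 : S (ss' D hx0 ⟨w, hw⟩) = ss D hx0 (S ⟨w, hw⟩) := by
      have h2 := hSs (ss' D hx0 ⟨w, hw⟩)
      rw [(D.rels hx0 hm).ss'] at h2
      rw [h2, (D.rels hx0 hm).ss']
    have h1 := congrArg Subtype.val h0
    rw [← hSE] at h1
    change SE (lin (g (n - 2)).symm w) =
      lin (g (n - 2)) ((S ⟨w, hw⟩ : VW rk β (β (Φ.f 0))) : _) at h1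
    rw [← hSE] at h1
    exact h1
  -- the translation part of the first generator
  have hy0 : rk (φ 0 (Φ.f 0)) = 0 := by rw [rk_auto hP, hx0]
  have hb0 : SE (β (φ 0 (Φ.f 0)) - β (Φ.f 0)) = β (φ 0 (Φ.f 0)) - β (Φ.f 0) := by
    have hmem : (⟨β (φ 0 (Φ.f 0)) - β (Φ.f 0), sub_mem_VW _ hy0⟩ : VW rk β (β (Φ.f 0))) ∈
        VK m (tt D hx0) (ss D hx0) m := by
      refine ⟨?_, fun j hj hjm => ?_⟩
      · apply Subtype.ext
        change lin (g (n - 2)) (β (φ 0 (Φ.f 0)) - β (Φ.f 0)) = β (φ 0 (Φ.f 0)) - β (Φ.f 0)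
        have h1 := D.dih (j := 0) le_rfl (by omega) (Φ.f 0)
        rw [D.face (i := n - 2) (j := 0) (by omega) (by omega) (by omega) (by omega)] at h1
        have h2 : φ (n - 2) (φ 0 (Φ.f 0)) = φ 0 (Φ.f 0) := by
          conv_lhs => rw [h1]
          exact OrderIso.apply_symm_apply _ _
        rw [lin_sub, D.sym _ _ hy0, D.sym _ _ hx0, h2,
          D.face (i := n - 2) (j := 0) (by omega) (by omega) (by omega) (by omega)]
      · apply Subtype.ext
        change lin (g j) (β (φ 0 (Φ.f 0)) - β (Φ.f 0)) = β (φ 0 (Φ.f 0)) - β (Φ.f 0)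
        have h1 := D.comm (i := 0) (j := j) le_rfl (by omega) (by omega) (Φ.f 0)
        rw [D.face (i := j) (j := 0) (by omega) (by omega) (by omega) (by omega)] at h1
        rw [lin_sub, D.sym _ _ hy0, D.sym _ _ hx0, ← h1,
          D.face (i := j) (j := 0) (by omega) (by omega) (by omega) (by omega)]
    have h1 := hSE ⟨β (φ 0 (Φ.f 0)) - β (Φ.f 0), sub_mem_VW _ hy0⟩
    rw [hSA _ hmem] at h1
    exact h1
  -- the two intertwining relations
  have key : ∀ i : ℤ, 0 ≤ i → i < n →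
      (∀ x, rk x = 0 → T (g i (β x)) = (g i).symm (T (β x))) ∧
      (∀ x, rk x = 0 → T ((g i).symm (β x)) = g i (T (β x))) := by
    intro i hi0 hin
    have symi := isSymmetry_symm hP (D.sym i)
    by_cases h1 : i ≤ m
    · obtain ⟨j, rfl⟩ := Int.eq_ofNat_of_zero_le hi0
      have hjm : j ≤ m := by omega
      have hinv : ∀ x, (φ j).symm x = φ j x := fun x => D.inv_symm (by omega) (by omega) x
      have hlc : ∀ w ∈ VW rk β (β (Φ.f 0)), lin (g j).symm w = lin (g j) w := fun w hw =>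
        lin_congr hP hx0 symi (D.sym j) hinv hw
      have hg1 : g j (β (Φ.f 0)) = β (φ j (Φ.f 0)) := D.sym j _ hx0
      have hg2 : (g j).symm (β (Φ.f 0)) = β (φ j (Φ.f 0)) := by
        rw [symi _ hx0, hinv]
      have hbj : SE (β (φ j (Φ.f 0)) - β (Φ.f 0)) = β (φ j (Φ.f 0)) - β (Φ.f 0) := by
        rcases Nat.eq_zero_or_pos j with h0 | h0
        · subst h0
          exact hb0
        · rw [D.face (i := j) (j := 0) (by omega) (by omega) (by omega) (by omega), sub_self,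
            map_zero]
      constructor
      · apply intertwine hx0 SE T hT
        · rw [hg1, hg2]; exact hbj
        · intro w hw
          rw [lt j hjm w hw, hlc _ (hSEW w hw)]
      · apply intertwine hx0 SE T hT
        · rw [hg1, hg2]; exact hbj
        · intro w hw
          rw [hlc w hw, lt j hjm w hw]
    · by_cases h2 : i = n - 2
      · subst h2
        have hf := D.face (i := n - 2) (j := 0) (by omega) (by omega) (by omega) (by omega)
        have hg1 : g (n - 2) (β (Φ.f 0)) = β (Φ.f 0) := by rw [D.sym _ _ hx0, hf]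
        have hg2 : (g (n - 2)).symm (β (Φ.f 0)) = β (Φ.f 0) := by
          rw [IsometryEquiv.symm_apply_eq, hg1]
        constructor
        · apply intertwine hx0 SE T hT
          · rw [hg1, hg2, sub_self, map_zero]
          · exact ls
        · apply intertwine hx0 SE T hT
          · rw [hg1, hg2, sub_self, map_zero]
          · exact ls'
      · have h3 : i = n - 1 := by omega
        subst h3
        have hid : ∀ x, φ (n - 1) x = OrderIso.refl F x := by
          apply act_ext hP (A := Φ)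
          rw [D.img _ hi0 hin, adj_adj, act_refl]
        have hids : ∀ x, (φ (n - 1)).symm x = OrderIso.refl F x := by
          intro x
          rw [OrderIso.symm_apply_eq]
          exact (hid _).symm
        have l1 : ∀ w ∈ VW rk β (β (Φ.f 0)), lin (g (n - 1)) w = w := by
          intro w hw
          rw [lin_congr hP hx0 (D.sym (n - 1)) isSymmetry_refl hid hw]
          exact congrArg Subtype.val (LW_id hP hx0 ⟨w, hw⟩)
        have l2 : ∀ w ∈ VW rk β (β (Φ.f 0)), lin (g (n - 1)).symm w = w := by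
          intro w hw
          rw [lin_congr hP hx0 symi isSymmetry_refl hids hw]
          exact congrArg Subtype.val (LW_id hP hx0 ⟨w, hw⟩)
        have hg1 : g (n - 1) (β (Φ.f 0)) = β (Φ.f 0) := by rw [D.sym _ _ hx0, hid]; rfl
        have hg2 : (g (n - 1)).symm (β (Φ.f 0)) = β (Φ.f 0) := by
          rw [IsometryEquiv.symm_apply_eq, hg1]
        constructor
        · apply intertwine hx0 SE T hT
          · rw [hg1, hg2, sub_self, map_zero]
          · intro w hw
            rw [l1 w hw, l2 _ (hSEW w hw)]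
        · apply intertwine hx0 SE T hT
          · rw [hg1, hg2, sub_self, map_zero]
          · intro w hw
            rw [l2 w hw, l1 _ (hSEW w hw)]
  have hT0 : T (β (Φ.f 0)) = β (Φ.f 0) := by
    rw [hT, sub_self, map_zero, zero_add]
  exact (chiral_seq hP hc).1 Φ (n - 1) (by omega) (by omega)
    (mirror hP hβ (by omega) Φ φ (fun i => (φ i).symm) g (fun i => (g i).symm)
      (fun i _ _ => D.sym i) (fun i _ _ => isSymmetry_symm hP (D.sym i))
      (fun i h0 h1 => D.img' h0 h1) (fun i h0 h1 => D.img_symm h0 h1) T hT0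
      (fun i h0 h1 => (key i h0 h1).1) (fun i h0 h1 => (key i h0 h1).2))

end ChiralNF
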